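import Mathlib

/-!
# Restricted power series, affinoid algebras, smoothness, extended modules

Basic definitions for the Bass-Quillen question for smooth affinoid algebras.
-/

set_option autoImplicit false

namespace Pool.Agent.U247.BQ

open MvPowerSeries Filter Topology
open scoped TensorProduct

/-- The ring `R⟨σ⟩` of restricted power series: the power series in the variables `σ` over the
ultrametric normed ring `R` whose coefficients tend to zero (along the cofinite filter).
For `σ = Unit` this is the ring `R⟨T⟩` of restricted power series `∑ aᵢ Tⁱ`, for `σ = Fin n` and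
`R = k` it is the Tate algebra `k⟨X₁, …, Xₙ⟩`. -/
abbrev TS (σ : Type*) (R : Type*) [NormedCommRing R] [IsUltrametricDist R] : Type _ :=
  (MvPowerSeries.IsRestricted.subring (R := R) (fun _ : σ => (1 : ℝ)) : Subring (MvPowerSeries σ R))

section

variable (σ : Type*) (R : Type*) [NormedCommRing R] [IsUltrametricDist R]

/-- The constant power series. -/
noncomputable def constHom : R →+* TS σ R where
  toFun r := ⟨MvPowerSeries.C r, isRestricted_C _ r⟩
  map_one' := Subtype.ext (map_one _)
  map_mul' a b := Subtype.ext (map_mul _ a b)
  map_zero' := Subtype.ext (map_zero _)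
  map_add' a b := Subtype.ext (map_add _ a b)

/-- `R⟨σ⟩` is an `R`-algebra by the constant power series. -/
noncomputable instance algTS : Algebra R (TS σ R) := (constHom σ R).toAlgebra

end

lemma mem_iff {σ : Type*} {R : Type*} [NormedCommRing R] [IsUltrametricDist R]
    (f : MvPowerSeries σ R) :
    f ∈ MvPowerSeries.IsRestricted.subring (R := R) (fun _ : σ => (1 : ℝ)) ↔
      Tendsto (fun t => ‖coeff t f‖) cofinite (𝓝 0) := by
  show IsRestricted _ f ↔ _
  unfold IsRestricted
  simp [Finsupp.prod]

section Tate

variable {k : Type*} [NontriviallyNormedField k] [IsUltrametricDist k]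

/-- The partial derivative of an element of the Tate algebra. -/
noncomputable def pd {n : ℕ} (i : Fin n) (f : TS (Fin n) k) : TS (Fin n) k :=
  ⟨MvPowerSeries.pderiv k i f.1, by
    rw [mem_iff]
    have h1 : Tendsto (fun t => ‖coeff t f.1‖) cofinite (𝓝 0) := (mem_iff f.1).1 f.2
    have h2 : Function.Injective fun t : Fin n →₀ ℕ => t + Finsupp.single i 1 :=
      fun a b h => add_right_cancel h
    refine squeeze_zero (fun t => norm_nonneg _) (fun t => ?_) (h1.comp h2.tendsto_cofinite)
    rw [MvPowerSeries.coeff_pderiv, Function.comp_apply]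
    calc ‖coeff (t + Finsupp.single i 1) f.1 * ((t i : k) + 1)‖
        = ‖coeff (t + Finsupp.single i 1) f.1‖ * ‖((t i + 1 : ℕ) : k)‖ := by
          rw [norm_mul]; push_cast; rfl
      _ ≤ ‖coeff (t + Finsupp.single i 1) f.1‖ * 1 :=
          mul_le_mul_of_nonneg_left (IsUltrametricDist.norm_natCast_le_one k _) (norm_nonneg _)
      _ = _ := mul_one _⟩

/-- A presentation of the Banach algebra `A` over `k` as a quotient of the Tate algebra in `n`
variables: a surjective homomorphism of `k`-algebras which is bounded with respect to the Gauss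
norm (the supremum of the norms of the coefficients). -/
structure Presentation (k : Type*) [NontriviallyNormedField k] [IsUltrametricDist k]
    (A : Type*) [NormedCommRing A] [NormedAlgebra k A] (n : ℕ) where
  /-- the homomorphism -/
  toHom : TS (Fin n) k →+* A
  surjective : Function.Surjective toHom
  map_const : ∀ c : k, toHom (algebraMap k (TS (Fin n) k) c) = algebraMap k A c
  bounded : ∃ C : ℝ, ∀ (f : TS (Fin n) k) (M : ℝ), (∀ t, ‖coeff t f.1‖ ≤ M) →
    ‖toHom f‖ ≤ C * M

/-- The Jacobian criterion for the closed subspace of the closed unit ball of dimension `n` with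
the ideal `I`, at the point given by the maximal ideal `P`: there are `f₁, …, f_c` in `I` which
generate `I` at `P` and such that some `c × c` minor of the matrix of the partial derivatives
`∂fᵢ/∂Xⱼ` does not vanish at `P`. -/
def SmoothAt {n : ℕ} (I P : Ideal (TS (Fin n) k)) : Prop :=
  ∃ (c : ℕ) (f : Fin c → TS (Fin n) k) (j : Fin c → Fin n),
    (∀ i, f i ∈ I) ∧ (∀ g ∈ I, ∃ s, s ∉ P ∧ s * g ∈ Ideal.span (Set.range f)) ∧
    (Matrix.of fun i l => pd (j l) (f i)).det ∉ P

/-- `A` is a smooth affinoid algebra over `k`: it is a quotient of a Tate algebra (as a Banach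
algebra), and the Jacobian criterion holds at every point of `Sp A`. -/
def IsSmoothAffinoid (k : Type*) [NontriviallyNormedField k] [IsUltrametricDist k]
    (A : Type*) [NormedCommRing A] [NormedAlgebra k A] : Prop :=
  ∃ (n : ℕ) (φ : Presentation k A n), ∀ P : Ideal (TS (Fin n) k), P.IsMaximal →
    RingHom.ker φ.toHom ≤ P → SmoothAt (RingHom.ker φ.toHom) P

end Tate

universe u

/-- The module `M` over `A⟨T⟩` is extended from `A`: it is isomorphic to `A⟨T⟩ ⊗ N` for a finitely
generated projective `A`-module `N`. -/
def IsExtended (A : Type u) [NormedCommRing A] [IsUltrametricDist A]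
    (M : Type u) [AddCommGroup M] [Module (TS Unit A) M] : Prop :=
  ∃ (N : Type u) (_ : AddCommGroup N) (_ : Module A N), Module.Finite A N ∧
    Module.Projective A N ∧ Nonempty (M ≃ₗ[TS Unit A] (TS Unit A) ⊗[A] N)

end Pool.Agent.U247.BQ
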