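import Pool.Agent.U247.BQ.TS

/-!
# Evaluation of restricted power series

Restricted power series can be evaluated at elements of norm at most one of a complete ultrametric
normed ring; this is the only continuous ring homomorphism with the given values at the constants
and at the variables.
-/

set_option autoImplicit false

namespace Pool.Agent.U247.BQ

open MvPowerSeries Filter Topology
open scoped NI

scoped instance NI.nonarchRing {B : Type*} [NormedCommRing B] [IsUltrametricDist B] :
    NonarchimedeanRing B where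
  is_nonarchimedean := NonarchimedeanAddGroup.is_nonarchimedean

section eval

variable {σ : Type*} {R : Type*} [NormedCommRing R] [IsUltrametricDist R]
variable {B : Type*} [NormedCommRing B] [IsUltrametricDist B] [NormOneClass B]

/-- The constant power series. -/
noncomputable def cst (r : R) : TS σ R := mono 0 r

/-- The variable `X i`. -/
noncomputable def var (i : σ) : TS σ R := mono (Finsupp.single i 1) 1

/-- The monomial `a ^ t`. -/
noncomputable def ap (a : σ → B) (t : σ →₀ ℕ) : B := t.prod fun i n => a i ^ n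

omit [IsUltrametricDist B] [NormOneClass B] in
lemma cst_eq (r : R) : (cst r : TS σ R) = algebraMap R (TS σ R) r := Subtype.ext rfl

lemma ap_zero (a : σ → B) : ap a 0 = 1 := by simp [ap]

lemma ap_single (a : σ → B) (i : σ) : ap a (Finsupp.single i 1) = a i := by simp [ap]

lemma ap_add (a : σ → B) (s t : σ →₀ ℕ) : ap a (s + t) = ap a s * ap a t := by
  classical
  exact Finsupp.prod_add_index' (fun i => pow_zero _) (fun i m n => pow_add _ _ _)

lemma norm_ap_le (a : σ → B) (ha : ∀ i, ‖a i‖ ≤ 1) (t : σ →₀ ℕ) : ‖ap a t‖ ≤ 1 := by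
  classical
  induction t using Finsupp.induction_linear with
  | zero => rw [ap_zero, norm_one]
  | add s t hs ht =>
    rw [ap_add]
    exact (norm_mul_le _ _).trans (mul_le_one₀ hs (norm_nonneg _) ht)
  | single i n =>
    have : ap a (Finsupp.single i n) = a i ^ n := by simp [ap]
    rw [this]
    exact (norm_pow_le _ _).trans (pow_le_one₀ (norm_nonneg _) (ha i))

/-- The value of a restricted power series. -/
noncomputable def evalFun (φ : R →+* B) (a : σ → B) (f : TS σ R) : B := ∑' t, φ (cf t f) * ap a t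

variable (φ : R →+* B) (a : σ → B)

lemma summable_eval [CompleteSpace B] (hφ : ∀ r, ‖φ r‖ ≤ ‖r‖) (ha : ∀ i, ‖a i‖ ≤ 1) (f : TS σ R) :
    Summable fun t => φ (cf t f) * ap a t := by
  rw [NonarchimedeanAddGroup.summable_iff_tendsto_cofinite_zero, tendsto_zero_iff_norm_tendsto_zero]
  refine squeeze_zero (fun t => norm_nonneg _) (fun t => ?_) (tendsto_cf f)
  calc ‖φ (cf t f) * ap a t‖ ≤ ‖φ (cf t f)‖ * ‖ap a t‖ := norm_mul_le _ _
    _ ≤ ‖cf t f‖ * 1 := mul_le_mul (hφ _) (norm_ap_le a ha t) (norm_nonneg _) (norm_nonneg _)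
    _ = ‖cf t f‖ := mul_one _

lemma norm_evalFun_le [CompleteSpace B] (hφ : ∀ r, ‖φ r‖ ≤ ‖r‖) (ha : ∀ i, ‖a i‖ ≤ 1)
    (f : TS σ R) : ‖evalFun φ a f‖ ≤ ‖f‖ := by
  unfold evalFun
  refine IsUltrametricDist.norm_tsum_le_of_forall_le_of_nonneg (norm_nonneg f) fun t => ?_
  calc ‖φ (cf t f) * ap a t‖ ≤ ‖φ (cf t f)‖ * ‖ap a t‖ := norm_mul_le _ _
    _ ≤ ‖cf t f‖ * 1 := mul_le_mul (hφ _) (norm_ap_le a ha t) (norm_nonneg _) (norm_nonneg _)
    _ ≤ ‖f‖ := by rw [mul_one]; exact norm_cf_le f t

lemma evalFun_mono [CompleteSpace B] (t : σ →₀ ℕ) (r : R) : evalFun φ a (mono t r) = φ r * ap a t := by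
  classical
  unfold evalFun
  rw [tsum_eq_single t]
  · rw [cf_mono, if_pos rfl]
  · intro s hs
    rw [cf_mono, if_neg hs, map_zero, zero_mul]

/-- Evaluation of restricted power series, as a ring homomorphism. -/
noncomputable def eval [CompleteSpace B] (hφ : ∀ r, ‖φ r‖ ≤ ‖r‖) (ha : ∀ i, ‖a i‖ ≤ 1) :
    TS σ R →+* B where
  toFun := evalFun φ a
  map_zero' := by simp [evalFun]
  map_one' := by rw [← mono_zero_one, evalFun_mono, map_one, ap_zero, one_mul]
  map_add' f g := by
    unfold evalFun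
    rw [← (summable_eval φ a hφ ha f).tsum_add (summable_eval φ a hφ ha g)]
    refine tsum_congr fun t => ?_
    rw [cf_add, map_add, add_mul]
  map_mul' f g := by
    classical
    have hf := summable_eval φ a hφ ha f
    have hg := summable_eval φ a hφ ha g
    unfold evalFun
    rw [hf.tsum_mul_tsum_eq_tsum_sum_antidiagonal hg (hf.mul_of_nonarchimedean hg)]
    refine tsum_congr fun t => ?_
    rw [cf_mul, map_sum, Finset.sum_mul]
    refine Finset.sum_congr rfl fun p hp => ?_
    rw [Finset.HasAntidiagonal.mem_antidiagonal] at hp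
    rw [← hp, ap_add, map_mul]
    ring

variable [CompleteSpace B] (hφ : ∀ r, ‖φ r‖ ≤ ‖r‖) (ha : ∀ i, ‖a i‖ ≤ 1)

lemma eval_cst (r : R) : eval φ a hφ ha (cst r) = φ r := by
  show evalFun φ a (mono 0 r) = _
  rw [evalFun_mono, ap_zero, mul_one]

lemma eval_var (i : σ) : eval φ a hφ ha (var i) = a i := by
  show evalFun φ a (mono _ 1) = _
  rw [evalFun_mono, ap_single, map_one, one_mul]

lemma norm_eval_le (f : TS σ R) : ‖eval φ a hφ ha f‖ ≤ ‖f‖ := norm_evalFun_le φ a hφ ha f

end eval

section ext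

variable {σ : Type*} {R : Type*} [NormedCommRing R] [IsUltrametricDist R] [NormOneClass R]

lemma ap_var (t : σ →₀ ℕ) : ap (var : σ → TS σ R) t = mono t 1 := by
  classical
  induction t using Finsupp.induction_linear with
  | zero => rw [ap_zero, mono_zero_one]
  | add s t hs ht => rw [ap_add, hs, ht, mono_mul, one_mul]
  | single i n =>
    have h1 : ap (var : σ → TS σ R) (Finsupp.single i n) = var i ^ n := by simp [ap]
    rw [h1]
    induction n with
    | zero => simp [mono_zero_one]
    | succ n ih =>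
      rw [pow_succ, ih (by simp [ap]), var, mono_mul, one_mul, ← Finsupp.single_add]

lemma mono_eq (t : σ →₀ ℕ) (r : R) : mono t r = cst r * ap (var : σ → TS σ R) t := by
  rw [ap_var, cst, mono_mul, zero_add, mul_one]

variable {B : Type*} [NormedCommRing B]

lemma hom_eq_of_continuous (ψ₁ ψ₂ : TS σ R →+* B) (h₁ : Continuous ψ₁) (h₂ : Continuous ψ₂)
    (hC : ∀ r, ψ₁ (cst r) = ψ₂ (cst r)) (hX : ∀ i, ψ₁ (var i) = ψ₂ (var i)) : ψ₁ = ψ₂ := by
  classical
  ext f
  have h3 : ∀ t r, ψ₁ (mono t r) = ψ₂ (mono t r) := by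
    intro t r
    rw [mono_eq, map_mul, map_mul, hC]
    congr 1
    unfold ap
    rw [map_finsuppProd, map_finsuppProd]
    simp only [map_pow, hX]
  have e1 := (hasSum_mono f).map ψ₁ h₁
  have e2 := (hasSum_mono f).map ψ₂ h₂
  have e3 : (ψ₁ ∘ fun t => mono t (cf t f)) = (ψ₂ ∘ fun t => mono t (cf t f)) :=
    funext fun t => h3 _ _
  rw [e3] at e1
  exact e1.unique e2

lemma continuous_of_norm_le {G : Type*} [NormedCommRing G] (ψ : G →+* B)
    (h : ∀ f, ‖ψ f‖ ≤ ‖f‖) : Continuous ψ :=
  AddMonoidHomClass.continuous_of_bound ψ 1 fun x => by rw [one_mul]; exact h x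

end ext

end Pool.Agent.U247.BQ
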