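import Mathlib

/-!
# Extended modules given by idempotents of rank one

Let `R` be an `A`-algebra with a retraction `ε : R → A` and let `E` be an idempotent endomorphism of
`R × R` which `ε` maps to the projection to the first factor.  If the image of `E` is isomorphic to
`R ⊗ N` for some `A`-module `N`, then it is free of rank one.
-/

set_option autoImplicit false

namespace Pool.Agent.U247.BQ

open scoped TensorProduct

variable {A R N : Type*} [CommRing A] [CommRing R] [Algebra A R] [AddCommGroup N] [Module A N]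

/-- The endomorphism of `R × R` given by a matrix. -/
def mat (e₁₁ e₁₂ e₂₁ e₂₂ : R) : R × R →ₗ[R] R × R where
  toFun v := (e₁₁ * v.1 + e₁₂ * v.2, e₂₁ * v.1 + e₂₂ * v.2)
  map_add' v w := by ext <;> simp <;> ring
  map_smul' c v := by ext <;> simp <;> ring

section

variable (ε : R →+* A) (hε : ∀ a, ε (algebraMap A R a) = a)

/-- The map `R ⊗ N → N` induced by `ε`. -/
noncomputable def kap : R ⊗[A] N →ₗ[A] N :=
  TensorProduct.lift (LinearMap.mk₂ A (fun r n => ε r • n)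
    (fun r s n => by rw [map_add, add_smul])
    (fun a r n => by rw [Algebra.smul_def, map_mul, hε, mul_smul])
    (fun r m n => smul_add _ _ _)
    (fun a r n => smul_comm _ _ _))

lemma kap_tmul (r : R) (n : N) : kap ε hε (r ⊗ₜ n) = ε r • n := rfl

lemma kap_smul (r : R) (w : R ⊗[A] N) : kap ε hε (r • w) = ε r • kap ε hε w := by
  induction w using TensorProduct.induction_on with
  | zero => simp
  | tmul s n => rw [TensorProduct.smul_tmul', kap_tmul, kap_tmul, smul_eq_mul, map_mul, mul_smul]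
  | add x y hx hy => rw [smul_add, map_add, hx, hy, map_add, smul_add]

lemma semi_eq (μ : R ⊗[A] N →+ A) (hμ : ∀ r w, μ (r • w) = ε r * μ w) (w : R ⊗[A] N) :
    μ (1 ⊗ₜ kap ε hε w) = μ w := by
  induction w using TensorProduct.induction_on with
  | zero => simp
  | tmul r n =>
    rw [kap_tmul]
    have h1 : (r ⊗ₜ[A] n : R ⊗[A] N) = r • (1 ⊗ₜ n) := by
      rw [TensorProduct.smul_tmul', smul_eq_mul, mul_one]
    have h2 : ((1 : R) ⊗ₜ[A] (ε r • n) : R ⊗[A] N) = algebraMap A R (ε r) • (1 ⊗ₜ n) := by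
      rw [TensorProduct.smul_tmul', smul_eq_mul, mul_one, ← TensorProduct.smul_tmul,
        Algebra.smul_def, mul_one]
    rw [h1, h2, hμ, hμ, hε]
  | add x y hx hy => rw [map_add, TensorProduct.tmul_add, map_add, hx, hy, map_add]

end

/-- If the image of an idempotent matrix which `ε` maps to the projection to the first factor is
extended from `A`, then it is generated by one element. -/
theorem exists_gen (ε : R →+* A) (hε : ∀ a, ε (algebraMap A R a) = a) (e₁₁ e₁₂ e₂₁ e₂₂ : R)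
    (hE : ∀ v, mat e₁₁ e₁₂ e₂₁ e₂₂ (mat e₁₁ e₁₂ e₂₁ e₂₂ v) = mat e₁₁ e₁₂ e₂₁ e₂₂ v)
    (h1 : ε e₁₁ = 1) (h3 : ε e₂₁ = 0) (h4 : ε e₂₂ = 0)
    (Φ : LinearMap.range (mat e₁₁ e₁₂ e₂₁ e₂₂) ≃ₗ[R] R ⊗[A] N) :
    ∃ v₁ v₂ α β : R, v₁ * α = e₁₁ ∧ v₂ * α = e₂₁ ∧ v₁ * β = e₁₂ ∧ v₂ * β = e₂₂ := by
  set E := mat e₁₁ e₁₂ e₂₁ e₂₂ with hEdef
  set M := LinearMap.range E with hM
  let E' : R × R →ₗ[R] M := E.rangeRestrict
  have hEm : ∀ m : M, E' m.1 = m := by
    rintro ⟨_, ⟨v, rfl⟩⟩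
    exact Subtype.ext (hE v)
  let μ : M →+ A :=
    { toFun := fun m => ε m.1.1
      map_zero' := by simp
      map_add' := fun a b => by simp }
  have hμ : ∀ (r : R) (m : M), μ (r • m) = ε r * μ m := fun r m => by
    show ε (r * m.1.1) = _
    rw [map_mul]; rfl
  let κ : R ⊗[A] N →ₗ[A] N := kap ε hε
  let θ : R × R →+ N := κ.toAddMonoidHom.comp (Φ.toLinearMap.toAddMonoidHom.comp E'.toAddMonoidHom)
  have hθ : ∀ (r : R) (v : R × R), θ (r • v) = ε r • θ v := fun r v => by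
    show κ (Φ (E' (r • v))) = _
    rw [map_smul, map_smul]
    exact kap_smul ε hε r _
  have hθ' : ∀ v : R × R, θ v = ε v.1 • θ (1, 0) + ε v.2 • θ (0, 1) := fun v => by
    rw [← hθ, ← hθ, ← map_add]
    congr 1
    ext <;> simp
  have hm2 : ∀ m : M, ε m.1.2 = 0 := fun m => by
    have h := congrArg (fun x : M => x.1.2) (hEm m)
    have h' : e₂₁ * m.1.1 + e₂₂ * m.1.2 = m.1.2 := h
    rw [← h', map_add, map_mul, map_mul, h3, h4, zero_mul, zero_mul, add_zero]
  have hμ' : ∀ w, (μ.comp Φ.symm.toLinearMap.toAddMonoidHom) (1 ⊗ₜ κ w) =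
      (μ.comp Φ.symm.toLinearMap.toAddMonoidHom) w :=
    semi_eq ε hε (μ.comp Φ.symm.toLinearMap.toAddMonoidHom) (fun r w => by
      show μ (Φ.symm (r • w)) = ε r * μ (Φ.symm w)
      rw [map_smul, hμ])
  let Θ : N ≃ₗ[A] A :=
    { toFun := fun n => μ (Φ.symm (1 ⊗ₜ n))
      map_add' := fun m n => by rw [TensorProduct.tmul_add, map_add, map_add]
      map_smul' := fun a n => by
        have h2 : ((1 : R) ⊗ₜ[A] (a • n) : R ⊗[A] N) = algebraMap A R a • (1 ⊗ₜ n) := by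
          rw [TensorProduct.smul_tmul', smul_eq_mul, mul_one, ← TensorProduct.smul_tmul,
            Algebra.smul_def, mul_one]
        rw [h2, map_smul, hμ, hε]; rfl
      invFun := fun a => θ (algebraMap A R a, 0)
      left_inv := fun n => by
        set m := Φ.symm (1 ⊗ₜ n) with hm
        have h5 : θ (algebraMap A R (μ m), 0) = θ m.1 := by
          rw [hθ', hθ' m.1, hm2 m]
          simp only [hε, map_zero]
          rfl
        show θ (algebraMap A R (μ m), 0) = n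
        rw [h5]
        show κ (Φ (E' m.1)) = n
        rw [hEm m, hm, LinearEquiv.apply_symm_apply]
        show ε 1 • n = n
        rw [map_one, one_smul]
      right_inv := fun a => by
        show (μ.comp Φ.symm.toLinearMap.toAddMonoidHom) (1 ⊗ₜ κ (Φ (E' (algebraMap A R a, 0)))) = a
        rw [hμ']
        show μ (Φ.symm (Φ (E' (algebraMap A R a, 0)))) = a
        rw [LinearEquiv.symm_apply_apply]
        show ε (e₁₁ * algebraMap A R a + e₁₂ * 0) = a
        rw [mul_zero, add_zero, map_mul, h1, hε, one_mul] }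
  let Ψ : M ≃ₗ[R] R :=
    (Φ.trans (TensorProduct.AlgebraTensorModule.congr (LinearEquiv.refl R R) Θ)).trans
      (TensorProduct.AlgebraTensorModule.rid A R R)
  have key : ∀ m : M, m = Ψ m • Ψ.symm 1 := fun m => by
    rw [← map_smul, smul_eq_mul, mul_one, LinearEquiv.symm_apply_apply]
  have k1 := congrArg (fun x : M => x.1) (key (E' (1, 0)))
  have k2 := congrArg (fun x : M => x.1) (key (E' (0, 1)))
  refine ⟨(Ψ.symm 1).1.1, (Ψ.symm 1).1.2, Ψ (E' (1, 0)), Ψ (E' (0, 1)), ?_, ?_, ?_, ?_⟩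
  · have : e₁₁ * 1 + e₁₂ * 0 = Ψ (E' (1, 0)) * (Ψ.symm 1).1.1 := congrArg Prod.fst k1
    rw [mul_comm, ← this]; ring
  · have : e₂₁ * 1 + e₂₂ * 0 = Ψ (E' (1, 0)) * (Ψ.symm 1).1.2 := congrArg Prod.snd k1
    rw [mul_comm, ← this]; ring
  · have : e₁₁ * 0 + e₁₂ * 1 = Ψ (E' (0, 1)) * (Ψ.symm 1).1.1 := congrArg Prod.fst k2
    rw [mul_comm, ← this]; ring
  · have : e₂₁ * 0 + e₂₂ * 1 = Ψ (E' (0, 1)) * (Ψ.symm 1).1.2 := congrArg Prod.snd k2
    rw [mul_comm, ← this]; ring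

/-- The image of an idempotent is finitely generated and projective. -/
theorem range_projective (e₁₁ e₁₂ e₂₁ e₂₂ : R)
    (hE : ∀ v, mat e₁₁ e₁₂ e₂₁ e₂₂ (mat e₁₁ e₁₂ e₂₁ e₂₂ v) = mat e₁₁ e₁₂ e₂₁ e₂₂ v) :
    Module.Finite R (LinearMap.range (mat e₁₁ e₁₂ e₂₁ e₂₂)) ∧
      Module.Projective R (LinearMap.range (mat e₁₁ e₁₂ e₂₁ e₂₂)) := by
  refine ⟨inferInstance, ?_⟩
  refine Module.Projective.of_split (LinearMap.range (mat e₁₁ e₁₂ e₂₁ e₂₂)).subtype
    (mat e₁₁ e₁₂ e₂₁ e₂₂).rangeRestrict ?_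
  ext ⟨_, ⟨v, rfl⟩⟩
  · exact congrArg Prod.fst (hE v)
  · exact congrArg Prod.snd (hE v)

/-- Idempotency of a matrix `e + h (2 e - 1)` with trace one. -/
theorem mat_idem (a b c δ h : R) (hδ : a * (1 - a) - b * c = δ) (hh : (h + h ^ 2) * (1 - 4 * δ) = δ) (v : R × R) :
    mat (a + h * (2 * a - 1)) (b * (1 + 2 * h)) (c * (1 + 2 * h)) ((1 - a) + h * (1 - 2 * a))
      (mat (a + h * (2 * a - 1)) (b * (1 + 2 * h)) (c * (1 + 2 * h)) ((1 - a) + h * (1 - 2 * a)) v) =
    mat (a + h * (2 * a - 1)) (b * (1 + 2 * h)) (c * (1 + 2 * h)) ((1 - a) + h * (1 - 2 * a)) v := by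
  subst hδ
  refine Prod.ext ?_ ?_
  · show (a + h * (2 * a - 1)) * ((a + h * (2 * a - 1)) * v.1 + (b * (1 + 2 * h)) * v.2) +
      (b * (1 + 2 * h)) * ((c * (1 + 2 * h)) * v.1 + ((1 - a) + h * (1 - 2 * a)) * v.2) =
      (a + h * (2 * a - 1)) * v.1 + (b * (1 + 2 * h)) * v.2
    linear_combination v.1 * hh
  · show (c * (1 + 2 * h)) * ((a + h * (2 * a - 1)) * v.1 + (b * (1 + 2 * h)) * v.2) +
      ((1 - a) + h * (1 - 2 * a)) * ((c * (1 + 2 * h)) * v.1 + ((1 - a) + h * (1 - 2 * a)) * v.2) =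
      (c * (1 + 2 * h)) * v.1 + ((1 - a) + h * (1 - 2 * a)) * v.2
    linear_combination v.2 * hh

end Pool.Agent.U247.BQ
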