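import Pool.Agent.U247.BQ.Setup

/-!
# The algebra `A` is a smooth affinoid algebra

`A = S ⊕ S y` with `S = k⟨x⟩` and `y ^ 2 = x ^ 3 + π x - π y` is the quotient of `k⟨X₀, X₁⟩` by the
ideal generated by `F = X₁² + π X₁ - X₀³ - π X₀`.
-/

set_option autoImplicit false

namespace Pool.Agent.U247.BQ

open Filter Topology
open scoped NI

universe u

section general

/-- If a continuous additive map `N` of a complete ring `B` of restricted power series is linear
over the constants and `X ^ t - N (X ^ t)` is a bounded multiple of `F` for all `t`, then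
`h - N h` is a multiple of `F` for all `h`. -/
lemma exists_mul_of_mono {σ R : Type*} [NormedCommRing R] [IsUltrametricDist R] [NormOneClass R]
    [CompleteSpace R] (F : TS σ R) (N : TS σ R →+ TS σ R) (hN : Continuous N)
    (hlin : ∀ (r : R) (h : TS σ R), N (cst r * h) = cst r * N h)
    (hmono : ∀ t : σ →₀ ℕ, ∃ w : TS σ R, ‖w‖ ≤ 1 ∧ mono t 1 - N (mono t 1) = F * w) (h : TS σ R) :
    ∃ w, h - N h = F * w := by
  choose w hw1 hw2 using hmono
  have hs : Summable fun t => cst (cf t h) * w t := by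
    rw [NonarchimedeanAddGroup.summable_iff_tendsto_cofinite_zero,
      tendsto_zero_iff_norm_tendsto_zero]
    refine squeeze_zero (fun t => norm_nonneg _) (fun t => ?_) (tendsto_cf h)
    calc ‖cst (cf t h) * w t‖ ≤ ‖(cst (cf t h) : TS σ R)‖ * ‖w t‖ := norm_mul_le _ _
      _ ≤ ‖cf t h‖ * 1 := by
        rw [norm_cst]; exact mul_le_mul_of_nonneg_left (hw1 t) (norm_nonneg _)
      _ = ‖cf t h‖ := mul_one _
  have e1 : ∀ t, mono t (cf t h) = cst (cf t h) * mono t 1 := fun t => by
    rw [cst, mono_mul, zero_add, mul_one]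
  have h1 := hasSum_mono h
  have h2 := h1.map N hN
  have h3 := h1.sub h2
  have h4 : (fun t => mono t (cf t h) - (N ∘ fun t => mono t (cf t h)) t) =
      fun t => F * (cst (cf t h) * w t) := by
    funext t
    show mono t (cf t h) - N (mono t (cf t h)) = _
    rw [e1, hlin, ← mul_sub, hw2]
    ring
  rw [h4] at h3
  exact ⟨_, h3.unique (hs.hasSum.mul_left F)⟩

end general

variable {k : Type u} [NontriviallyNormedField k] [IsUltrametricDist k] [CompleteSpace k]

section pres

variable (π : k) (hπ : ‖π‖ < 1)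

/-- The values of the variables. -/
noncomputable def vals : Fin 2 → QA (par π hπ) := ![QA.inc _ xS, QA.om _]

lemma norm_vals (i : Fin 2) : ‖vals π hπ i‖ ≤ 1 := by
  fin_cases i
  · show ‖QA.inc _ xS‖ ≤ 1
    rw [QA.norm_inc, norm_xS]
  · show ‖QA.om (par π hπ)‖ ≤ 1
    rw [QA.norm_om]

/-- The homomorphism `k⟨X₀, X₁⟩ → A`. -/
noncomputable def phi : TS (Fin 2) k →+* QA (par π hπ) :=
  eval (iA π hπ) (vals π hπ) (fun r => (norm_iA r).le) (norm_vals π hπ)

lemma norm_phi_le (f : TS (Fin 2) k) : ‖phi π hπ f‖ ≤ ‖f‖ := norm_eval_le _ _ _ _ f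

lemma phi_cst (r : k) : phi π hπ (cst r) = iA π hπ r := eval_cst _ _ _ _ r

lemma phi_var0 : phi π hπ (var 0) = QA.inc _ xS := eval_var _ _ _ _ 0

lemma phi_var1 : phi π hπ (var 1) = QA.om _ := eval_var _ _ _ _ 1

variable (k) in
/-- The homomorphism `k⟨x⟩ → k⟨X₀, X₁⟩`. -/
noncomputable def ell : TS Unit k →+* TS (Fin 2) k :=
  eval (constHom (Fin 2) k) (fun _ => var 0) (fun r => (norm_cst r).le) (fun _ => (norm_var 0).le)

variable (k) in
lemma norm_ell_le (f : TS Unit k) : ‖ell k f‖ ≤ ‖f‖ := norm_eval_le _ _ _ _ f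

lemma ell_cst (r : k) : ell k (cst r) = cst r := eval_cst _ _ _ _ r

variable (k) in
lemma ell_x : ell k xS = var 0 := eval_var _ _ _ _ ()

lemma phi_ell (s : TS Unit k) : phi π hπ (ell k s) = QA.inc _ s := by
  have h : (phi π hπ).comp (ell k) = QA.inc (par π hπ) := by
    refine hom_eq_of_continuous _ _ ?_ ?_ ?_ ?_
    · exact (continuous_of_norm_le _ (norm_phi_le π hπ)).comp
        (continuous_of_norm_le _ (norm_ell_le k))
    · exact continuous_of_norm_le _ fun f => (QA.norm_inc f).le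
    · intro r
      show phi π hπ (ell k (cst r)) = _
      rw [ell_cst, phi_cst]; rfl
    · intro i
      show phi π hπ (ell k xS) = QA.inc _ xS
      rw [ell_x, phi_var0]
  exact DFunLike.congr_fun h s

/-- The section `x + y ω ↦ x(X₀) + y(X₀) X₁`. -/
noncomputable def sect : QA (par π hπ) →+ TS (Fin 2) k where
  toFun z := ell k (QA.re z) + ell k (QA.im z) * var 1
  map_zero' := by simp
  map_add' z w := by
    rw [QA.re_add, QA.im_add, map_add, map_add]; ring

lemma sect_apply (z : QA (par π hπ)) :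
    sect π hπ z = ell k (QA.re z) + ell k (QA.im z) * var 1 := rfl

lemma phi_sect (z : QA (par π hπ)) : phi π hπ (sect π hπ z) = z := by
  rw [sect_apply, map_add, map_mul, phi_ell, phi_ell, phi_var1]
  exact (QA.eq_inc_add _ z).symm

lemma norm_sect_le (z : QA (par π hπ)) : ‖sect π hπ z‖ ≤ ‖z‖ := by
  rw [sect_apply]
  refine (IsUltrametricDist.norm_add_le_max _ _).trans (max_le ?_ ?_)
  · exact (norm_ell_le k _).trans (QA.norm_re_le z)
  · refine (norm_mul_le _ _).trans ?_
    rw [norm_var, mul_one]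
    exact (norm_ell_le k _).trans (QA.norm_im_le z)

/-- The equation of the curve. -/
noncomputable def FF : TS (Fin 2) k := var 1 ^ 2 + cst π * var 1 - var 0 ^ 3 - cst π * var 0

lemma phi_FF : phi π hπ (FF π) = 0 := by
  unfold FF
  rw [map_sub, map_sub, map_add, map_mul, map_mul, map_pow, map_pow, phi_var0, phi_var1, phi_cst,
    sq, QA.om_sq]
  show QA.inc _ (xS ^ 3 + cst π * xS) + QA.inc _ (-cst π) * QA.om _ +
    QA.inc _ (cst π) * QA.om _ - QA.inc _ xS ^ 3 - QA.inc _ (cst π) * QA.inc _ xS = 0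
  rw [map_add, map_mul, map_neg, map_pow]
  ring

/-- The product of normal forms. -/
lemma sect_mul (z w : QA (par π hπ)) :
    sect π hπ z * sect π hπ w - sect π hπ (z * w) = FF π * ell k (QA.im z * QA.im w) := by
  rw [sect_apply, sect_apply, sect_apply, QA.re_mul, QA.im_mul]
  show _ - (ell k (QA.re z * QA.re w + (xS ^ 3 + cst π * xS) * QA.im z * QA.im w) +
    ell k (QA.re z * QA.im w + QA.im z * QA.re w + (-cst π) * QA.im z * QA.im w) * var 1) = _
  simp only [map_add, map_mul, map_neg, map_pow, ell_x, ell_cst]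
  unfold FF
  ring

/-- The normal form. -/
noncomputable def nf : TS (Fin 2) k →+ TS (Fin 2) k :=
  (sect π hπ).comp (phi π hπ).toAddMonoidHom

lemma nf_apply (h : TS (Fin 2) k) : nf π hπ h = sect π hπ (phi π hπ h) := rfl

lemma norm_nf_le (h : TS (Fin 2) k) : ‖nf π hπ h‖ ≤ ‖h‖ :=
  (norm_sect_le π hπ _).trans (norm_phi_le π hπ h)

lemma nf_mul (h h' : TS (Fin 2) k) : nf π hπ h * nf π hπ h' - nf π hπ (h * h') =
    FF π * ell k (QA.im (phi π hπ h) * QA.im (phi π hπ h')) := by
  rw [nf_apply, nf_apply, nf_apply, map_mul]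
  exact sect_mul π hπ _ _

/-- The elements with a bounded division with remainder. -/
def Good (h : TS (Fin 2) k) : Prop := ‖h‖ ≤ 1 ∧ ∃ w, ‖w‖ ≤ 1 ∧ h - nf π hπ h = FF π * w

variable {π hπ} in
lemma Good.mul {h h' : TS (Fin 2) k} (hh : Good π hπ h) (hh' : Good π hπ h') :
    Good π hπ (h * h') := by
  obtain ⟨n1, w, hw1, hw2⟩ := hh
  obtain ⟨n2, w', hw1', hw2'⟩ := hh'
  have m1 : ∀ {a b : TS (Fin 2) k}, ‖a‖ ≤ 1 → ‖b‖ ≤ 1 → ‖a * b‖ ≤ 1 := fun {a b} ha hb =>
    (norm_mul_le _ _).trans (mul_le_one₀ ha (norm_nonneg _) hb)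
  refine ⟨m1 n1 n2, h * w' + w * nf π hπ h' +
    ell k (QA.im (phi π hπ h) * QA.im (phi π hπ h')), ?_, ?_⟩
  · refine (IsUltrametricDist.norm_add_le_max _ _).trans (max_le
      ((IsUltrametricDist.norm_add_le_max _ _).trans (max_le (m1 n1 hw1')
        (m1 hw1 ((norm_nf_le π hπ h').trans n2)))) ?_)
    refine (norm_ell_le k _).trans ((norm_mul_le _ _).trans (mul_le_one₀ ?_ (norm_nonneg _) ?_))
    · exact (QA.norm_im_le _).trans ((norm_phi_le π hπ h).trans n1)
    · exact (QA.norm_im_le _).trans ((norm_phi_le π hπ h').trans n2)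
  · linear_combination h * hw2' + (nf π hπ h') * hw2 + nf_mul π hπ h h'

lemma good_one : Good π hπ 1 := by
  refine ⟨norm_one.le, 0, by simp, ?_⟩
  rw [nf_apply, map_one, sect_apply, QA.re_one, QA.im_one, map_one, map_zero]; ring

lemma good_var (i : Fin 2) : Good π hπ (var i) := by
  refine ⟨(norm_var i).le, 0, by simp, ?_⟩
  fin_cases i
  · show var 0 - nf π hπ (var 0) = _
    rw [nf_apply, phi_var0, sect_apply, QA.re_inc, QA.im_inc, ell_x, map_zero]; ring
  · show var 1 - nf π hπ (var 1) = _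
    rw [nf_apply, phi_var1, sect_apply, QA.re_om, QA.im_om, map_one, map_zero]; ring

lemma good_mono (t : Fin 2 →₀ ℕ) : Good π hπ (mono t 1) := by
  classical
  induction t using Finsupp.induction_linear with
  | zero => rw [mono_zero_one]; exact good_one π hπ
  | add s t hs ht =>
    have := hs.mul ht
    rwa [mono_mul, one_mul] at this
  | single i n =>
    have h1 : (mono (Finsupp.single i n) 1 : TS (Fin 2) k) = var i ^ n := by
      rw [← ap_var]; simp [ap]
    rw [h1]
    induction n with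
    | zero => rw [pow_zero]; exact good_one π hπ
    | succ n ih =>
      rw [pow_succ]
      refine (ih ?_).mul (good_var π hπ i)
      rw [← ap_var]; simp [ap]

lemma mem_ker_iff (h : TS (Fin 2) k) : h ∈ RingHom.ker (phi π hπ) ↔ h ∈ Ideal.span {FF π} := by
  rw [RingHom.mem_ker, Ideal.mem_span_singleton']
  constructor
  · intro h0
    obtain ⟨w, hw⟩ := exists_mul_of_mono (FF π) (nf π hπ)
      (AddMonoidHomClass.continuous_of_bound (nf π hπ) 1 fun x => by
        rw [one_mul]; exact norm_nf_le π hπ x)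
      (fun r h => by
        rw [nf_apply, nf_apply, map_mul, phi_cst, sect_apply, sect_apply]
        have h1 : QA.re (iA π hπ r * phi π hπ h) = cst r * QA.re (phi π hπ h) := by
          rw [QA.re_mul]
          show cst r * _ + _ * (0 : TS Unit k) * _ = _
          ring
        have h2 : QA.im (iA π hπ r * phi π hπ h) = cst r * QA.im (phi π hπ h) := by
          rw [QA.im_mul]
          show cst r * _ + (0 : TS Unit k) * _ + _ * (0 : TS Unit k) * _ = _
          ring
        rw [h1, h2, map_mul, map_mul, ell_cst]; ring)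
      (fun t => (good_mono π hπ t).2) h
    refine ⟨w, ?_⟩
    rw [nf_apply, h0, map_zero, sub_zero] at hw
    rw [hw]; ring
  · rintro ⟨w, rfl⟩
    rw [map_mul, phi_FF, mul_zero]

/-- The `k`-algebra structure of `A`. -/
@[reducible] noncomputable def algA : NormedAlgebra k (QA (par π hπ)) :=
  { (iA π hπ).toAlgebra with
    norm_smul_le := fun r x => by
      show ‖iA π hπ r * x‖ ≤ ‖r‖ * ‖x‖
      exact (norm_mul_le _ _).trans (by rw [norm_iA]) }

/-- The presentation of `A`. -/
noncomputable def pres :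
    letI := algA π hπ
    Presentation k (QA (par π hπ)) 2 :=
  letI := algA π hπ
  { toHom := phi π hπ
    surjective := fun z => ⟨_, phi_sect π hπ z⟩
    map_const := fun c => phi_cst π hπ c
    bounded := ⟨1, fun f M hM => by
      rw [one_mul]
      exact (norm_phi_le π hπ f).trans (norm_le_iff.2 hM)⟩ }

lemma pd0_FF : pd 0 (FF π) = -(3 * var 0 ^ 2 + cst π) := by
  apply Subtype.ext
  show MvPowerSeries.pderiv k 0 ((MvPowerSeries.X 1) ^ 2 + MvPowerSeries.C π * MvPowerSeries.X 1 -
    MvPowerSeries.X 0 ^ 3 - MvPowerSeries.C π * MvPowerSeries.X 0) =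
    -(3 * MvPowerSeries.X 0 ^ 2 + MvPowerSeries.C π)
  rw [map_sub, map_sub, map_add, Derivation.leibniz, Derivation.leibniz,
    MvPowerSeries.pderiv_pow, MvPowerSeries.pderiv_pow, MvPowerSeries.pderiv_C,
    MvPowerSeries.pderiv_X_self, MvPowerSeries.pderiv_X_of_ne (by decide : (1 : Fin 2) ≠ 0)]
  simp only [smul_eq_mul]
  push_cast
  ring

lemma pd1_FF : pd 1 (FF π) = 2 * var 1 + cst π := by
  apply Subtype.ext
  show MvPowerSeries.pderiv k 1 ((MvPowerSeries.X 1) ^ 2 + MvPowerSeries.C π * MvPowerSeries.X 1 -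
    MvPowerSeries.X 0 ^ 3 - MvPowerSeries.C π * MvPowerSeries.X 0) =
    (2 * MvPowerSeries.X 1 + MvPowerSeries.C π)
  rw [map_sub, map_sub, map_add, Derivation.leibniz, Derivation.leibniz,
    MvPowerSeries.pderiv_pow, MvPowerSeries.pderiv_pow, MvPowerSeries.pderiv_C,
    MvPowerSeries.pderiv_X_self, MvPowerSeries.pderiv_X_of_ne (by decide : (0 : Fin 2) ≠ 1)]
  simp only [smul_eq_mul]
  push_cast
  ring

/-- The discriminant is a combination of the equation and its partial derivatives. -/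
lemma disc (p x y F u w : TS (Fin 2) k) (hF : F = y ^ 2 + p * y - x ^ 3 - p * x)
    (hu : u = -(3 * x ^ 2 + p)) (hw : w = 2 * y + p) :
    p ^ 2 * (64 + 27 * p) =
      (36 * (8 * x - 3 * p)) * F + (-(64 * p) - 12 * (8 * x - 3 * p) * x) * u -
        (9 * (8 * x - 3 * p)) * w * w := by
  subst hF hu hw; ring

theorem smooth (h0 : π ≠ 0) (h1 : 64 + 27 * π ≠ 0) :
    letI := algA π hπ
    IsSmoothAffinoid k (QA (par π hπ)) := by
  let _ := algA π hπ
  refine ⟨2, pres π hπ, fun P hP hle => ?_⟩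
  have hker : RingHom.ker (pres π hπ).toHom = RingHom.ker (phi π hπ) := rfl
  rw [hker] at hle ⊢
  have hF : FF π ∈ P := hle ((mem_ker_iff π hπ _).2 (Ideal.subset_span rfl))
  have h1P : (1 : TS (Fin 2) k) ∉ P := fun h => hP.ne_top ((Ideal.eq_top_iff_one P).2 h)
  have hgen : ∀ g ∈ RingHom.ker (phi π hπ), ∃ s, s ∉ P ∧
      s * g ∈ Ideal.span (Set.range fun _ : Fin 1 => FF π) := by
    intro g hg
    refine ⟨1, h1P, ?_⟩
    rw [one_mul, Set.range_const]
    exact (mem_ker_iff π hπ g).1 hg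
  by_cases h3 : pd 0 (FF π) ∈ P
  · refine ⟨1, fun _ => FF π, fun _ => 1, fun _ => (mem_ker_iff π hπ _).2 (Ideal.subset_span rfl),
      hgen, ?_⟩
    rw [Matrix.det_fin_one]
    show pd 1 (FF π) ∉ P
    intro h4
    have h5 : cst π ^ 2 * (64 + 27 * cst π) ∈ P := by
      rw [disc (cst π) (var 0) (var 1) (FF π) (pd 0 (FF π)) (pd 1 (FF π)) rfl (pd0_FF π) (pd1_FF π)]
      exact P.sub_mem (P.add_mem (P.mul_mem_left _ hF) (P.mul_mem_left _ h3)) (P.mul_mem_left _ h4)
    have h6 : constHom (Fin 2) k ((π ^ 2 * (64 + 27 * π))⁻¹) *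
        (cst π ^ 2 * (64 + 27 * cst π)) = 1 := by
      have e : (cst π : TS (Fin 2) k) = constHom (Fin 2) k π := rfl
      have e2 : (cst π ^ 2 * (64 + 27 * cst π) : TS (Fin 2) k) =
          constHom (Fin 2) k (π ^ 2 * (64 + 27 * π)) := by
        rw [map_mul, map_add, map_mul, map_pow, ← e, map_ofNat, map_ofNat]
      rw [e2, ← map_mul, inv_mul_cancel₀ (mul_ne_zero (pow_ne_zero _ h0) h1), map_one]
    have h7 := P.mul_mem_left (constHom (Fin 2) k ((π ^ 2 * (64 + 27 * π))⁻¹)) h5
    rw [h6] at h7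
    exact h1P h7
  · refine ⟨1, fun _ => FF π, fun _ => 0, fun _ => (mem_ker_iff π hπ _).2 (Ideal.subset_span rfl),
      hgen, ?_⟩
    rw [Matrix.det_fin_one]
    exact h3

end pres

end Pool.Agent.U247.BQ
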