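import Pool.Agent.U247.BQ.Main
import Pool.Agent.U247.BQ.Pres

/-!
# Assembly
-/

set_option autoImplicit false

namespace Pool.Agent.U247.BQ

open scoped NI

universe u

/-- For every complete non-archimedean field `k` there is a smooth affinoid algebra `A` with a
projective `A⟨T⟩`-module which is not extended from `A`. -/
theorem final (k : Type u) [NontriviallyNormedField k] [CompleteSpace k] [IsUltrametricDist k] :
    ∃ (A : Type u) (_ : NormedCommRing A) (_ : NormedAlgebra k A) (_ : CompleteSpace A)
      (_ : IsUltrametricDist A), IsSmoothAffinoid k A ∧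
      ∃ (M : Type u) (_ : AddCommGroup M) (_ : Module (TS Unit A) M),
        Module.Finite (TS Unit A) M ∧ Module.Projective (TS Unit A) M ∧ ¬ IsExtended A M := by
  obtain ⟨π, h0, h1, h2⟩ : ∃ π : k, π ≠ 0 ∧ ‖π‖ < 1 ∧ 64 + 27 * π ≠ 0 := by
    obtain ⟨a, ha0, ha1⟩ := NormedField.exists_norm_lt_one k
    have ha : a ≠ 0 := norm_pos_iff.1 ha0
    by_cases h : 64 + 27 * a = 0
    · refine ⟨a ^ 2, pow_ne_zero _ ha, ?_, fun h' => ?_⟩
      · rw [norm_pow]; exact pow_lt_one₀ ha0.le ha1 two_ne_zero
      · have h3 : 27 * (a * (a - 1)) = 0 := by linear_combination h' - h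
        have h4 : a - 1 ≠ 0 := fun h5 => by
          have h6 : a = 1 := by linear_combination h5
          rw [h6, norm_one] at ha1
          exact lt_irrefl _ ha1
        have h5 : (27 : k) = 0 := by
          rcases mul_eq_zero.1 h3 with h6 | h6
          · exact h6
          · exact absurd h6 (mul_ne_zero ha h4)
        have h6 : (64 : k) = 0 := by linear_combination h - a * h5
        exact one_ne_zero (α := k) (by linear_combination (-8 : k) * h6 + 19 * h5)
    · exact ⟨a, ha, ha1, h⟩
  exact ⟨QA (par π h1), inferInstance, algA π h1, inferInstance, inferInstance,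
    smooth π h1 h0 h2, exists_not_extended π h1 (Ideal.Quotient.mk (mIdeal k)) (isRed_base k)⟩

end Pool.Agent.U247.BQ
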