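import Pool.Agent.U247.BQ.Quot

/-!
# A projective module over `A⟨T⟩` which is not extended
-/

set_option autoImplicit false

namespace Pool.Agent.U247.BQ

open Filter Topology Polynomial
open scoped NI

universe u

variable {k : Type u} [NontriviallyNormedField k] [IsUltrametricDist k] [CompleteSpace k]
variable {π : k} {hπ : ‖π‖ < 1}
variable {D : Type*} [CommRing D] (r₀ : ball k →+* D) (hr₀ : IsRed r₀)

section final

variable (π hπ)

/-- `a = 1 - x² T⁴` -/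
noncomputable def ab : ball (TS Unit (QA (par π hπ))) := 1 - Xb π hπ ^ 2 * Tb π hπ ^ 4

/-- `b = (1 + x T²) (x T² - y T³)` -/
noncomputable def bb : ball (TS Unit (QA (par π hπ))) :=
  (1 + Xb π hπ * Tb π hπ ^ 2) * (Xb π hπ * Tb π hπ ^ 2 - Yb π hπ * Tb π hπ ^ 3)

/-- `c = x T² + y T³` -/
noncomputable def cb : ball (TS Unit (QA (par π hπ))) :=
  Xb π hπ * Tb π hπ ^ 2 + Yb π hπ * Tb π hπ ^ 3

/-- `δ = a (1 - a) - b c` -/
noncomputable def db : ball (TS Unit (QA (par π hπ))) :=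
  Pb π hπ * ((1 + Xb π hπ * Tb π hπ ^ 2) * Tb π hπ ^ 6 * (Xb π hπ - Yb π hπ))

lemma det_eq : ab π hπ * (1 - ab π hπ) - bb π hπ * cb π hπ = db π hπ := by
  unfold ab bb cb db
  linear_combination ((1 + Xb π hπ * Tb π hπ ^ 2) * Tb π hπ ^ 6) * XY π hπ

lemma norm_db : ‖(db π hπ).1‖ < 1 := by
  show ‖(iR π hπ π) * ((1 + Xb π hπ * Tb π hπ ^ 2) * Tb π hπ ^ 6 * (Xb π hπ - Yb π hπ) :
    ball (TS Unit (QA (par π hπ)))).1‖ < 1
  rw [norm_iR_mul]
  exact lt_of_le_of_lt (mul_le_of_le_one_right (norm_nonneg _) ((1 + Xb π hπ * Tb π hπ ^ 2) *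
    Tb π hπ ^ 6 * (Xb π hπ - Yb π hπ) : ball (TS Unit (QA (par π hπ)))).2) hπ

/-- evaluation at `T = 0` -/
noncomputable def ev : TS Unit (QA (par π hπ)) →+* QA (par π hπ) :=
  MvPowerSeries.constantCoeff.comp (Subring.subtype _)

lemma ev_alg (z : QA (par π hπ)) : ev π hπ (algebraMap _ _ z) = z :=
  MvPowerSeries.constantCoeff_C (σ := Unit) z

lemma ev_T : ev π hπ (Tb π hπ).1 = 0 := by
  have h := cn_var (R := QA (par π hπ)) 0
  rw [if_neg zero_ne_one, cn, Finsupp.single_zero] at h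
  exact h

lemma norm_ev_le (f : TS Unit (QA (par π hπ))) : ‖ev π hπ f‖ ≤ ‖f‖ := by
  refine le_trans (le_of_eq ?_) (norm_cf_le f 0)
  congr 1

/-- There is a projective module of rank one over `A⟨T⟩` which is not extended from `A`. -/
theorem exists_not_extended [IsDomain D] (r₀ : ball k →+* D) (hr₀ : IsRed r₀) :
    ∃ (M : Type u) (_ : AddCommGroup M) (_ : Module (TS Unit (QA (par π hπ))) M),
      Module.Finite (TS Unit (QA (par π hπ))) M ∧ Module.Projective (TS Unit (QA (par π hπ))) M ∧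
      ¬ IsExtended (QA (par π hπ)) M := by
  obtain ⟨h, hh1, hh2⟩ := solve (db π hπ).1 (norm_db π hπ)
  have hh3 : ‖h‖ < 1 := lt_of_le_of_lt hh1 (norm_db π hπ)
  have hdet : (ab π hπ).1 * (1 - (ab π hπ).1) - (bb π hπ).1 * (cb π hπ).1 = (db π hπ).1 :=
    congrArg Subtype.val (det_eq π hπ)
  have hE := mat_idem _ _ _ _ h hdet hh2
  set a := (ab π hπ).1 with ha
  set b := (bb π hπ).1 with hb
  set c := (cb π hπ).1 with hc
  obtain ⟨hfin, hproj⟩ := range_projective _ _ _ _ hE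
  refine ⟨_, inferInstance, inferInstance, hfin, hproj, ?_⟩
  rintro ⟨N, iN, jN, -, -, ⟨Φ⟩⟩
  -- the values at `T = 0`
  have eT := ev_T π hπ
  have ea : ev π hπ a = 1 := by
    have h1 : a = 1 - (Xb π hπ).1 ^ 2 * (Tb π hπ).1 ^ 4 := rfl
    rw [h1, map_sub, map_mul, map_pow, map_pow, eT, map_one]
    ring
  have ec : ev π hπ c = 0 := by
    have h1 : c = (Xb π hπ).1 * (Tb π hπ).1 ^ 2 + (Yb π hπ).1 * (Tb π hπ).1 ^ 3 := rfl
    rw [h1, map_add, map_mul, map_mul, map_pow, map_pow, eT]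
    ring
  have ed : ev π hπ (db π hπ).1 = 0 := by
    have h1 : (db π hπ).1 = (Pb π hπ).1 * ((1 + (Xb π hπ).1 * (Tb π hπ).1 ^ 2) * (Tb π hπ).1 ^ 6 *
      ((Xb π hπ).1 - (Yb π hπ).1)) := rfl
    rw [h1, map_mul, map_mul, map_mul, map_pow, eT]
    ring
  have eh : ev π hπ h = 0 := by
    have h1 := congrArg (ev π hπ) hh2
    rw [map_mul, map_sub, map_mul, ed, mul_zero, map_one, sub_zero, mul_one, map_add, map_pow] at h1
    have h2 : ev π hπ h = -(ev π hπ h) ^ 2 := by linear_combination h1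
    have h3 : ‖ev π hπ h‖ < 1 := lt_of_le_of_lt (norm_ev_le π hπ h) hh3
    have h4 : ‖ev π hπ h‖ ≤ ‖ev π hπ h‖ * ‖ev π hπ h‖ := by
      conv_lhs => rw [h2, norm_neg, sq]
      exact norm_mul_le _ _
    by_contra h5
    have h6 : 0 < ‖ev π hπ h‖ := norm_pos_iff.2 h5
    nlinarith
  obtain ⟨v₁, v₂, α, β, e11, e21, e12, e22⟩ := exists_gen (ev π hπ) (ev_alg π hπ) _ _ _ _ hE
    (by rw [map_add, map_mul, ea, eh, zero_mul, add_zero])
    (by rw [map_mul, ec, zero_mul])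
    (by rw [map_add, map_sub, map_mul, ea, eh, map_one]; ring) Φ
  -- the entries of the idempotent matrix have norm at most one
  let hb' : ball (TS Unit (QA (par π hπ))) := ⟨h, hh3.le⟩
  let E11 : ball (TS Unit (QA (par π hπ))) := ab π hπ + hb' * (2 * ab π hπ - 1)
  let E12 : ball (TS Unit (QA (par π hπ))) := bb π hπ * (1 + 2 * hb')
  let E21 : ball (TS Unit (QA (par π hπ))) := cb π hπ * (1 + 2 * hb')
  let E22 : ball (TS Unit (QA (par π hπ))) := (1 - ab π hπ) + hb' * (1 - 2 * ab π hπ)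
  have f11 : v₁ * α = E11.1 := e11
  have f12 : v₁ * β = E12.1 := e12
  have f21 : v₂ * α = E21.1 := e21
  have f22 : v₂ * β = E22.1 := e22
  have hred : rR π hπ r₀ hr₀ hb' = 0 := (isRed_rR π hπ r₀ hr₀ _).2 hh3
  have g11 : rR π hπ r₀ hr₀ E11 = 1 - C X ^ 4 * X ^ 4 := by
    show rR π hπ r₀ hr₀ (ab π hπ + hb' * (2 * ab π hπ - 1)) = _
    rw [map_add, map_mul, hred, zero_mul, add_zero]
    show rR π hπ r₀ hr₀ (1 - Xb π hπ ^ 2 * Tb π hπ ^ 4) = _
    rw [map_sub, map_one, map_mul, map_pow, map_pow, rR_X, rR_T, ← pow_mul]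
  have g21 : rR π hπ r₀ hr₀ E21 = C X ^ 2 * X ^ 2 + C X ^ 3 * X ^ 3 := by
    show rR π hπ r₀ hr₀ (cb π hπ * (1 + 2 * hb')) = _
    rw [map_mul, map_add, map_mul, hred, mul_zero, add_zero, map_one, mul_one]
    show rR π hπ r₀ hr₀ (Xb π hπ * Tb π hπ ^ 2 + Yb π hπ * Tb π hπ ^ 3) = _
    rw [map_add, map_mul, map_mul, map_pow, map_pow, rR_X, rR_Y, rR_T]
  have g12 : rR π hπ r₀ hr₀ E12 =
      C X ^ 2 * X ^ 2 - C X ^ 3 * X ^ 3 + C X ^ 4 * X ^ 4 - C X ^ 5 * X ^ 5 := by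
    show rR π hπ r₀ hr₀ (bb π hπ * (1 + 2 * hb')) = _
    rw [map_mul, map_add (rR π hπ r₀ hr₀) 1, map_mul (rR π hπ r₀ hr₀) 2, hred, mul_zero, add_zero, map_one,
      mul_one]
    show rR π hπ r₀ hr₀ ((1 + Xb π hπ * Tb π hπ ^ 2) * (Xb π hπ * Tb π hπ ^ 2 - Yb π hπ * Tb π hπ ^ 3)) = _
    rw [map_mul, map_add, map_sub, map_mul, map_mul, map_one, map_pow, map_pow, rR_X, rR_Y, rR_T]
    generalize (C X : D[X][X]) = s
    generalize (X : D[X][X]) = t
    ring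
  -- scaling
  obtain ⟨m, hm⟩ : ∃ m : k, ‖m‖ = max ‖v₁‖ ‖v₂‖ := by
    rcases max_cases ‖v₁‖ ‖v₂‖ with h1 | h1
    · obtain ⟨m, hm⟩ := exists_norm_R v₁
      exact ⟨m, by rw [hm, h1.1]⟩
    · obtain ⟨m, hm⟩ := exists_norm_R v₂
      exact ⟨m, by rw [hm, h1.1]⟩
  have hm0 : m ≠ 0 := by
    rintro rfl
    rw [norm_zero] at hm
    have h1 : ‖v₁‖ ≤ 0 := (le_max_left _ _).trans hm.ge
    have h2 : v₁ = 0 := norm_le_zero_iff.1 h1
    rw [h2, zero_mul] at e11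
    have h3 := congrArg (ev π hπ) e11
    rw [map_zero, map_add, map_mul, ea, eh, zero_mul, add_zero] at h3
    have h4 := congrArg norm h3
    rw [norm_zero, norm_one] at h4
    exact zero_ne_one h4
  have hmpos : 0 < ‖m‖ := norm_pos_iff.2 hm0
  set K := iR π hπ m with hK
  set K' := iR π hπ m⁻¹ with hK'
  have hKK : K' * K = 1 := by rw [mul_comm]; exact iR_mul_inv hm0
  have hmax : max ‖K' * v₁‖ ‖K' * v₂‖ = 1 := by
    rw [hK', norm_iR_mul, norm_iR_mul, ← mul_max_of_nonneg _ _ (norm_nonneg _), ← hm, norm_inv]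
    exact inv_mul_cancel₀ hmpos.ne'
  have s11 : (K' * v₁) * (K * α) = E11.1 := by
    rw [← f11]; linear_combination (v₁ * α) * hKK
  have s21 : (K' * v₂) * (K * α) = E21.1 := by
    rw [← f21]; linear_combination (v₂ * α) * hKK
  have s12 : (K' * v₁) * (K * β) = E12.1 := by
    rw [← f12]; linear_combination (v₁ * β) * hKK
  have s22 : (K' * v₂) * (K * β) = E22.1 := by
    rw [← f22]; linear_combination (v₂ * β) * hKK
  have hα : ‖K * α‖ ≤ 1 := norm_quot_le r₀ hr₀ _ _ _ _ _ hmax s11 s21 E11.2 E21.2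
  have hβ : ‖K * β‖ ≤ 1 := norm_quot_le r₀ hr₀ _ _ _ _ _ hmax s12 s22 E12.2 E22.2
  have hv1 : ‖K' * v₁‖ ≤ 1 := (le_max_left _ _).trans hmax.le
  have hv2 : ‖K' * v₂‖ ≤ 1 := (le_max_right _ _).trans hmax.le
  have t11 : (⟨K' * v₁, hv1⟩ : ball (TS Unit (QA (par π hπ)))) * ⟨K * α, hα⟩ = E11 :=
    Subtype.ext s11
  have t21 : (⟨K' * v₂, hv2⟩ : ball (TS Unit (QA (par π hπ)))) * ⟨K * α, hα⟩ = E21 :=
    Subtype.ext s21
  have t12 : (⟨K' * v₁, hv1⟩ : ball (TS Unit (QA (par π hπ)))) * ⟨K * β, hβ⟩ = E12 :=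
    Subtype.ext s12
  have u11 := congrArg (rR π hπ r₀ hr₀) t11
  have u21 := congrArg (rR π hπ r₀ hr₀) t21
  have u12 := congrArg (rR π hπ r₀ hr₀) t12
  rw [map_mul, g11] at u11
  rw [map_mul, g21] at u21
  rw [map_mul, g12] at u12
  exact no_factor _ _ _ _ (rR_coeff r₀ hr₀ _) u11 u21 u12

end final

end Pool.Agent.U247.BQ
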