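import Mathlib

/-!
# The matrix of Schanuel's module has no factorization

Over `D[s][T]`, `D` a domain, the matrix with the rows
`(1 - s^4 T^4, s^2 T^2 - s^3 T^3 + s^4 T^4 - s^5 T^5)` and `(s^2 T^2 + s^3 T^3, s^4 T^4)` is not
the product of a column and a row such that the first entry of the row has no monomial `s T^j`.
-/

set_option autoImplicit false

namespace Pool.Agent.U247.BQ

open Polynomial

section ids

variable {R : Type*} [CommRing R] (v₁ v₂ α β s T : R)

lemma id1 (h11 : v₁ * α = 1 - s ^ 4 * T ^ 4) (h21 : v₂ * α = s ^ 2 * T ^ 2 + s ^ 3 * T ^ 3) :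
    α * (v₁ * (1 + s * T) + v₂ * (s ^ 2 * T ^ 2)) = 1 + s * T := by
  linear_combination (1 + s * T) * h11 + s ^ 2 * T ^ 2 * h21

lemma id2 (h11 : v₁ * α = 1 - s ^ 4 * T ^ 4)
    (h12 : v₁ * β = s ^ 2 * T ^ 2 - s ^ 3 * T ^ 3 + s ^ 4 * T ^ 4 - s ^ 5 * T ^ 5) :
    ((1 - s * T) * (1 + s ^ 2 * T ^ 2)) * ((1 + s * T) * β) =
      ((1 - s * T) * (1 + s ^ 2 * T ^ 2)) * (α * (s ^ 2 * T ^ 2)) := by
  linear_combination (-β) * h11 + α * h12

lemma id3 : ((1 - s * T) * (1 + s ^ 2 * T ^ 2)) * (1 + s * T) = 1 - s ^ 4 * T ^ 4 := by ring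

lemma id4 (a : R) : a * (s ^ 2 * T ^ 2) = (a * s ^ 2) * T ^ 2 := by ring

lemma id5 (a : R) : (1 + s * T) * a = a + s * (T * a) := by ring

end ids

theorem no_factor {D : Type*} [CommRing D] [IsDomain D] (v₁ v₂ α β : D[X][X])
    (hα : ∀ n, (α.coeff n).coeff 1 = 0)
    (h11 : v₁ * α = 1 - C X ^ 4 * X ^ 4)
    (h21 : v₂ * α = C X ^ 2 * X ^ 2 + C X ^ 3 * X ^ 3)
    (h12 : v₁ * β = C X ^ 2 * X ^ 2 - C X ^ 3 * X ^ 3 + C X ^ 4 * X ^ 4 - C X ^ 5 * X ^ 5) :
    False := by
  have h1 := id1 v₁ v₂ α (C X) X h11 h21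
  generalize hγ : v₁ * (1 + C X * X) + v₂ * (C X ^ 2 * X ^ 2) = γ at h1
  have hlin : (1 + C X * X : D[X][X]) = C X * X + C 1 := by rw [C_1, add_comm]
  have hdeg : natDegree (1 + C X * X : D[X][X]) = 1 := by
    rw [hlin]
    exact natDegree_linear X_ne_zero
  have hlin0 : (1 + C X * X : D[X][X]) ≠ 0 := by
    intro h; rw [h, natDegree_zero] at hdeg; exact zero_ne_one hdeg
  have hα0 : α ≠ 0 := by rintro rfl; rw [zero_mul] at h1; exact hlin0 h1.symm
  have hγ0 : γ ≠ 0 := by rintro rfl; rw [mul_zero] at h1; exact hlin0 h1.symm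
  have hsum : natDegree α + natDegree γ = 1 := by
    rw [← natDegree_mul hα0 hγ0, h1, hdeg]
  have c0 : (1 + C X * X : D[X][X]).coeff 0 = 1 := by
    rw [coeff_add, coeff_one_zero, coeff_mul_X_zero, add_zero]
  have c1 : (1 + C X * X : D[X][X]).coeff 1 = X := by
    rw [coeff_add, coeff_one, if_neg one_ne_zero, coeff_mul_X, coeff_C_zero, zero_add]
  rcases Nat.eq_zero_or_pos (natDegree α) with hd | hd
  · -- `α` is a constant in `D[s]`
    obtain ⟨a, ha⟩ := natDegree_eq_zero.1 hd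
    have ha0 : a ≠ 0 := by rintro rfl; exact hα0 (by rw [← ha, C_0])
    have h2 : (1 + C X * X) * β = α * (C X ^ 2 * X ^ 2) := by
      refine mul_left_cancel₀ ?_ (id2 v₁ α β (C X) X h11 h12)
      intro h0
      have h4 := id3 (C X : D[X][X]) X
      rw [h0, zero_mul] at h4
      have h6 : (1 - C X ^ 4 * X ^ 4 : D[X][X]).coeff 0 = 0 := by rw [← h4, coeff_zero]
      rw [coeff_sub, coeff_one_zero, pow_succ X 3, ← mul_assoc, coeff_mul_X_zero, sub_zero] at h6
      exact one_ne_zero h6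
    have hR0 : α * (C X ^ 2 * X ^ 2) = C (a * X ^ 2) * X ^ 2 := by
      rw [← ha, id4, C_mul, C_pow]
    rw [hR0] at h2
    have haX : a * X ^ 2 ≠ 0 := mul_ne_zero ha0 (pow_ne_zero _ X_ne_zero)
    have hR : natDegree (C (a * X ^ 2) * X ^ 2 : D[X][X]) = 2 := natDegree_C_mul_X_pow 2 _ haX
    have hβ0 : β ≠ 0 := by
      rintro rfl
      rw [mul_zero] at h2
      rw [← h2, natDegree_zero] at hR
      exact absurd hR (by norm_num)
    have hβd : natDegree β = 1 := by
      have := natDegree_mul hlin0 hβ0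
      rw [h2, hR, hdeg] at this
      omega
    rw [id5] at h2
    have hb0 : β.coeff 0 = 0 := by
      have := congrArg (fun q : D[X][X] => q.coeff 0) h2
      simp only [coeff_add, coeff_C_mul, coeff_X_mul_zero, mul_zero, add_zero, coeff_X_pow] at this
      rw [this, if_neg (by norm_num), mul_zero]
    have hb1 : β.coeff 1 = 0 := by
      have := congrArg (fun q : D[X][X] => q.coeff 1) h2
      simp only [coeff_add, coeff_C_mul, coeff_X_pow] at this
      rw [coeff_X_mul, hb0, mul_zero, add_zero, if_neg (by norm_num), mul_zero] at this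
      exact this
    have hlead : β.coeff (natDegree β) ≠ 0 := by
      rw [coeff_natDegree]; exact leadingCoeff_ne_zero.2 hβ0
    rw [hβd] at hlead
    exact hlead hb1
  · -- `γ` is a constant in `D[s]`
    have hd' : natDegree γ = 0 := by omega
    obtain ⟨c, hc⟩ := natDegree_eq_zero.1 hd'
    have e0 : α.coeff 0 * c = 1 := by
      rw [← c0, ← h1, ← hc, coeff_mul_C]
    have e1 : α.coeff 1 * c = X := by
      rw [← c1, ← h1, ← hc, coeff_mul_C]
    have hu : IsUnit c := IsUnit.of_mul_eq_one_right _ e0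
    obtain ⟨u, hu1, hu2⟩ := Polynomial.isUnit_iff.1 hu
    have e2 : (α.coeff 1 * c).coeff 1 = 1 := by rw [e1, coeff_X_one]
    rw [← hu2, coeff_mul_C, hα 1, zero_mul] at e2
    exact zero_ne_one e2

end Pool.Agent.U247.BQ
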