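import Mathlib

/-!
# Quadratic extensions of ultrametric normed rings

For an ultrametric normed ring `S` and `g`, `b` in `S` of norm at most one, the quadratic algebra
`S ⊕ S ω` with `ω ^ 2 = g + b ω`, with the norm `max ‖x‖ ‖y‖` of `x + y ω`.
-/

set_option autoImplicit false

namespace Pool.Agent.U247.BQ

/-- Parameters of a quadratic extension. -/
structure QPar (S : Type*) [NormedCommRing S] where
  /-- the coefficient `g` in `ω ^ 2 = g + b ω` -/
  g : S
  /-- the coefficient `b` in `ω ^ 2 = g + b ω` -/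
  b : S
  hg : ‖g‖ ≤ 1
  hb : ‖b‖ ≤ 1

variable {S : Type*} [NormedCommRing S]

/-- The quadratic extension `S ⊕ S ω`. -/
def QA (p : QPar S) : Type _ := QuadraticAlgebra S p.g p.b

namespace QA

variable (p : QPar S)

instance : CommRing (QA p) := inferInstanceAs (CommRing (QuadraticAlgebra S p.g p.b))

variable {p}

/-- `x + y ω` -/
def mk (x y : S) : QA p := QuadraticAlgebra.mk x y

/-- the first coordinate -/
def re (z : QA p) : S := QuadraticAlgebra.re z

/-- the second coordinate -/
def im (z : QA p) : S := QuadraticAlgebra.im z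

@[simp] lemma re_mk (x y : S) : re (mk x y : QA p) = x := rfl
@[simp] lemma im_mk (x y : S) : im (mk x y : QA p) = y := rfl
@[simp] lemma mk_eta (z : QA p) : mk (re z) (im z) = z := rfl

@[ext] lemma ext' {z w : QA p} (h : re z = re w) (h' : im z = im w) : z = w :=
  QuadraticAlgebra.ext h h'

@[simp] lemma re_zero : re (0 : QA p) = 0 := rfl
@[simp] lemma im_zero : im (0 : QA p) = 0 := rfl
@[simp] lemma re_one : re (1 : QA p) = 1 := rfl
@[simp] lemma im_one : im (1 : QA p) = 0 := rfl
@[simp] lemma re_add (z w : QA p) : re (z + w) = re z + re w := rfl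
@[simp] lemma im_add (z w : QA p) : im (z + w) = im z + im w := rfl
@[simp] lemma re_neg (z : QA p) : re (-z) = -re z := rfl
@[simp] lemma im_neg (z : QA p) : im (-z) = -im z := rfl
@[simp] lemma re_sub (z w : QA p) : re (z - w) = re z - re w := rfl
@[simp] lemma im_sub (z w : QA p) : im (z - w) = im z - im w := rfl
@[simp] lemma re_mul (z w : QA p) : re (z * w) = re z * re w + p.g * im z * im w := rfl
@[simp] lemma im_mul (z w : QA p) :
    im (z * w) = re z * im w + im z * re w + p.b * im z * im w := rfl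

variable (p)

/-- the inclusion of `S` -/
def inc : S →+* QA p where
  toFun x := mk x 0
  map_one' := rfl
  map_zero' := rfl
  map_add' x y := by ext <;> simp
  map_mul' x y := by ext <;> simp

/-- the element `ω` -/
def om : QA p := mk 0 1

@[simp] lemma re_inc (x : S) : re (inc p x) = x := rfl
@[simp] lemma im_inc (x : S) : im (inc p x) = 0 := rfl
@[simp] lemma re_om : re (om p) = 0 := rfl
@[simp] lemma im_om : im (om p) = 1 := rfl

lemma om_sq : om p * om p = inc p p.g + inc p p.b * om p := by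
  ext <;> simp

lemma eq_inc_add (z : QA p) : z = inc p (re z) + inc p (im z) * om p := by
  ext <;> simp

variable {p}

noncomputable instance instNorm : Norm (QA p) := ⟨fun z => max ‖re z‖ ‖im z‖⟩

lemma norm_def (z : QA p) : ‖z‖ = max ‖re z‖ ‖im z‖ := rfl

lemma norm_re_le (z : QA p) : ‖re z‖ ≤ ‖z‖ := le_max_left _ _
lemma norm_im_le (z : QA p) : ‖im z‖ ≤ ‖z‖ := le_max_right _ _

lemma norm_nonneg' (z : QA p) : 0 ≤ ‖z‖ := (norm_nonneg _).trans (norm_re_le z)

section ultra

variable [IsUltrametricDist S]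

lemma norm_add_le_max' (z w : QA p) : ‖z + w‖ ≤ max ‖z‖ ‖w‖ := by
  rw [norm_def]
  refine max_le ?_ ?_
  · rw [re_add]
    exact (IsUltrametricDist.norm_add_le_max _ _).trans
      (max_le_max (norm_re_le z) (norm_re_le w))
  · rw [im_add]
    exact (IsUltrametricDist.norm_add_le_max _ _).trans
      (max_le_max (norm_im_le z) (norm_im_le w))

lemma norm_mul_le' (z w : QA p) : ‖z * w‖ ≤ ‖z‖ * ‖w‖ := by
  have h1 : ∀ {x y : S}, ‖x‖ ≤ ‖z‖ → ‖y‖ ≤ ‖w‖ → ‖x * y‖ ≤ ‖z‖ * ‖w‖ := fun {x y} hx hy =>
    (norm_mul_le _ _).trans (mul_le_mul hx hy (norm_nonneg _) (norm_nonneg' z))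
  have h2 : ∀ {x y c : S}, ‖c‖ ≤ 1 → ‖x‖ ≤ ‖z‖ → ‖y‖ ≤ ‖w‖ → ‖c * x * y‖ ≤ ‖z‖ * ‖w‖ := by
    intro x y c hc hx hy
    rw [mul_assoc]
    calc ‖c * (x * y)‖ ≤ ‖c‖ * ‖x * y‖ := norm_mul_le _ _
      _ ≤ 1 * (‖z‖ * ‖w‖) := mul_le_mul hc (h1 hx hy) (norm_nonneg _) zero_le_one
      _ = _ := one_mul _
  rw [norm_def (z * w)]
  refine max_le ?_ ?_
  · rw [re_mul]
    exact (IsUltrametricDist.norm_add_le_max _ _).trans
      (max_le (h1 (norm_re_le z) (norm_re_le w)) (h2 p.hg (norm_im_le z) (norm_im_le w)))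
  · rw [im_mul]
    refine (IsUltrametricDist.norm_add_le_max _ _).trans (max_le ?_
      (h2 p.hb (norm_im_le z) (norm_im_le w)))
    exact (IsUltrametricDist.norm_add_le_max _ _).trans
      (max_le (h1 (norm_re_le z) (norm_im_le w)) (h1 (norm_im_le z) (norm_re_le w)))

/-- The additive group norm. -/
noncomputable def groupNorm (p : QPar S) : AddGroupNorm (QA p) where
  toFun z := ‖z‖
  map_zero' := by simp [norm_def]
  add_le' z w := (norm_add_le_max' z w).trans
    (max_le_add_of_nonneg (norm_nonneg' z) (norm_nonneg' w))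
  neg' z := by simp [norm_def]
  eq_zero_of_map_eq_zero' z h := by
    have h1 : ‖re z‖ ≤ 0 := (norm_re_le z).trans (le_of_eq h)
    have h2 : ‖im z‖ ≤ 0 := (norm_im_le z).trans (le_of_eq h)
    ext
    · rw [re_zero, ← norm_le_zero_iff]; exact h1
    · rw [im_zero, ← norm_le_zero_iff]; exact h2

noncomputable instance instNormedCommRing (p : QPar S) : NormedCommRing (QA p) :=
  { (inferInstance : CommRing (QA p)) with
    toNorm := instNorm
    toMetricSpace := (groupNorm p).toNormedAddCommGroup.toMetricSpace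
    dist_eq := (groupNorm p).toNormedAddCommGroup.dist_eq
    norm_mul_le := norm_mul_le' }

instance instUltra : IsUltrametricDist (QA p) :=
  IsUltrametricDist.isUltrametricDist_of_forall_norm_add_le_max_norm norm_add_le_max'

instance instNormOne [NormOneClass S] : NormOneClass (QA p) :=
  ⟨by rw [norm_def, re_one, im_one, norm_one, norm_zero]; exact max_eq_left zero_le_one⟩

@[simp] lemma norm_inc (x : S) : ‖inc p x‖ = ‖x‖ := by
  rw [norm_def, re_inc, im_inc, norm_zero]; exact max_eq_left (norm_nonneg _)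

lemma norm_om [NormOneClass S] : ‖om p‖ = 1 := by
  rw [norm_def, re_om, im_om, norm_one, norm_zero]; exact max_eq_right zero_le_one

instance instComplete [CompleteSpace S] : CompleteSpace (QA p) := by
  refine Metric.complete_of_cauchySeq_tendsto fun u hu => ?_
  have h1 : CauchySeq fun n => re (u n) := by
    rw [Metric.cauchySeq_iff] at hu ⊢
    intro ε hε
    obtain ⟨N, hN⟩ := hu ε hε
    refine ⟨N, fun m hm n hn => ?_⟩
    have := hN m hm n hn
    rw [dist_eq_norm] at this ⊢
    rw [← re_sub]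
    exact lt_of_le_of_lt (norm_re_le _) this
  have h2 : CauchySeq fun n => im (u n) := by
    rw [Metric.cauchySeq_iff] at hu ⊢
    intro ε hε
    obtain ⟨N, hN⟩ := hu ε hε
    refine ⟨N, fun m hm n hn => ?_⟩
    have := hN m hm n hn
    rw [dist_eq_norm] at this ⊢
    rw [← im_sub]
    exact lt_of_le_of_lt (norm_im_le _) this
  obtain ⟨x, hx⟩ := cauchySeq_tendsto_of_complete h1
  obtain ⟨y, hy⟩ := cauchySeq_tendsto_of_complete h2
  refine ⟨mk x y, ?_⟩
  rw [tendsto_iff_norm_sub_tendsto_zero] at hx hy ⊢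
  have h3 := hx.max hy
  rw [max_self] at h3
  exact h3

end ultra

end QA

end Pool.Agent.U247.BQ
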