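import Pool.Agent.U247.BQ.Setup

set_option autoImplicit false

namespace Pool.Agent.U247.BQ

open Filter Topology Polynomial
open scoped NI

universe u

/-- Division by a vector of norm one does not increase the norm: abstract version. -/
lemma norm_quot_aux {k R E : Type*} [NormedField k] [NormedCommRing R] [IsUltrametricDist R]
    [NormOneClass R] [CommRing E] [IsDomain E] (ι : k →+* R) (hι : ∀ c f, ‖ι c * f‖ = ‖c‖ * ‖f‖)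
    (hex : ∀ f : R, ∃ c : k, ‖c‖ = ‖f‖) (ρ : ball R →+* E) (hρ : IsRed ρ)
    (w₁ w₂ γ f₁ f₂ : R) (hw : max ‖w₁‖ ‖w₂‖ = 1)
    (h1 : w₁ * γ = f₁) (h2 : w₂ * γ = f₂) (hf₁ : ‖f₁‖ ≤ 1) (hf₂ : ‖f₂‖ ≤ 1) : ‖γ‖ ≤ 1 := by
  by_contra hc
  push Not at hc
  obtain ⟨d, hd⟩ := hex γ
  have hd0 : 0 < ‖d‖ := by rw [hd]; linarith
  have hd1 : ‖d⁻¹‖ < 1 := by rw [norm_inv, hd]; exact inv_lt_one_of_one_lt₀ hc
  have hγ : ‖ι d⁻¹ * γ‖ = 1 := by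
    rw [hι, norm_inv, hd]
    exact inv_mul_cancel₀ (by linarith)
  have hw1 : ‖w₁‖ ≤ 1 := (le_max_left _ _).trans hw.le
  have hw2 : ‖w₂‖ ≤ 1 := (le_max_right _ _).trans hw.le
  let γb : ball R := ⟨ι d⁻¹ * γ, hγ.le⟩
  have hγ0 : ρ γb ≠ 0 := fun h => by
    have h5 : ‖ι d⁻¹ * γ‖ < 1 := (hρ γb).1 h
    rw [hγ] at h5
    exact lt_irrefl _ h5
  have key : ∀ (w f : R) (hw : ‖w‖ ≤ 1), w * γ = f → ‖f‖ ≤ 1 → ‖w‖ < 1 := by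
    intro w f hw h hf
    have h3 : ρ (⟨w, hw⟩ * γb) = 0 := by
      refine (hρ _).2 ?_
      show ‖w * (ι d⁻¹ * γ)‖ < 1
      rw [mul_left_comm, h, hι]
      exact lt_of_le_of_lt (mul_le_of_le_one_right (norm_nonneg _) hf) hd1
    rw [map_mul] at h3
    rcases mul_eq_zero.1 h3 with h4 | h4
    · exact (hρ ⟨w, hw⟩).1 h4
    · exact absurd h4 hγ0
  have h6 : max ‖w₁‖ ‖w₂‖ < 1 := max_lt (key w₁ f₁ hw1 h1 hf₁) (key w₂ f₂ hw2 h2 hf₂)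
  rw [hw] at h6
  exact lt_irrefl (1 : ℝ) h6

variable {k : Type u} [NontriviallyNormedField k] [IsUltrametricDist k] [CompleteSpace k]
variable {π : k} {hπ : ‖π‖ < 1}
variable {D : Type*} [CommRing D] (r₀ : ball k →+* D) (hr₀ : IsRed r₀)

/-- Division by a vector of norm one does not increase the norm. -/
lemma norm_quot_le [IsDomain D] (r₀ : ball k →+* D) (hr₀ : IsRed r₀)
    (w₁ w₂ γ f₁ f₂ : TS Unit (QA (par π hπ))) (hw : max ‖w₁‖ ‖w₂‖ = 1)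
    (h1 : w₁ * γ = f₁) (h2 : w₂ * γ = f₂) (hf₁ : ‖f₁‖ ≤ 1) (hf₂ : ‖f₂‖ ≤ 1) : ‖γ‖ ≤ 1 :=
  norm_quot_aux (iR π hπ) norm_iR_mul exists_norm_R (rR π hπ r₀ hr₀) (isRed_rR π hπ r₀ hr₀)
    w₁ w₂ γ f₁ f₂ hw h1 h2 hf₁ hf₂

end Pool.Agent.U247.BQ
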