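import Pool.Agent.U247.BQ.Eval
import Pool.Agent.U247.BQ.Quad

/-!
# Reduction

The closed unit ball of an ultrametric normed ring `R`, and homomorphisms `r` from it to a ring `D`
whose kernel is the open unit ball.  Such homomorphisms are constructed for `R⟨T⟩` (with values in
`D[T]`) and for the quadratic extensions with reduction `y ^ 2 = x ^ 3`.
-/

set_option autoImplicit false

namespace Pool.Agent.U247.BQ

open Filter Topology Polynomial
open scoped NI

section ball

variable (R : Type*) [NormedCommRing R] [IsUltrametricDist R] [NormOneClass R]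

/-- The closed unit ball. -/
def ball : Subring R where
  carrier := {x | ‖x‖ ≤ 1}
  mul_mem' {a b} ha hb := (norm_mul_le a b).trans (mul_le_one₀ ha (norm_nonneg _) hb)
  one_mem' := norm_one.le
  add_mem' {a b} ha hb := (IsUltrametricDist.norm_add_le_max a b).trans (max_le ha hb)
  zero_mem' := by simp
  neg_mem' {a} ha := by simpa using ha

variable {R}

lemma mem_ball {x : R} : x ∈ ball R ↔ ‖x‖ ≤ 1 := Iff.rfl

/-- `r` has the open unit ball as its kernel. -/
def IsRed {D : Type*} [CommRing D] (r : ball R →+* D) : Prop := ∀ a : ball R, r a = 0 ↔ ‖(a : R)‖ < 1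

end ball

section base

variable (k : Type*) [NormedField k] [IsUltrametricDist k]

/-- The open unit ball as an ideal of the closed one. -/
def mIdeal : Ideal (ball k) where
  carrier := {x | ‖(x : k)‖ < 1}
  add_mem' {a b} ha hb := lt_of_le_of_lt (IsUltrametricDist.norm_add_le_max (a : k) b) (max_lt ha hb)
  zero_mem' := by simp
  smul_mem' c x hx := by
    show ‖(c : k) * x‖ < 1
    rw [norm_mul]
    exact lt_of_le_of_lt (mul_le_of_le_one_left (norm_nonneg _) c.2) hx

instance : (mIdeal k).IsPrime where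
  ne_top' := by
    rw [Ne, Ideal.eq_top_iff_one]
    show ¬ ‖((1 : ball k) : k)‖ < 1
    simp
  mem_or_mem' {x y} h := by
    by_contra hc
    push Not at hc
    have h1 : ¬ ‖(x : k)‖ < 1 := hc.1
    have h2 : ¬ ‖(y : k)‖ < 1 := hc.2
    have h3 : ‖(x : k) * y‖ < 1 := h
    rw [norm_mul] at h3
    have h4 : (1 : ℝ) ≤ ‖(x : k)‖ * ‖(y : k)‖ := one_le_mul_of_one_le_of_one_le (not_lt.1 h1) (not_lt.1 h2)
    linarith

/-- The residue ring. -/
abbrev Res : Type _ := ball k ⧸ mIdeal k

lemma isRed_base : IsRed (Ideal.Quotient.mk (mIdeal k)) := fun a => by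
  rw [Ideal.Quotient.eq_zero_iff_mem]; rfl

end base

section TSred

variable {R : Type*} [NormedCommRing R] [IsUltrametricDist R] [NormOneClass R]

/-- The coefficients of a restricted power series in one variable. -/
noncomputable def cn (n : ℕ) (f : TS Unit R) : R := cf (Finsupp.single () n) f

lemma cn_eq (n : ℕ) (f : TS Unit R) : cn n f = PowerSeries.coeff n f.1 := rfl

lemma norm_cn_le (n : ℕ) (f : TS Unit R) : ‖cn n f‖ ≤ ‖f‖ := norm_cf_le f _

lemma cn_mul (n : ℕ) (f g : TS Unit R) :
    cn n (f * g) = ∑ p ∈ Finset.HasAntidiagonal.antidiagonal n, cn p.1 f * cn p.2 g :=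
  PowerSeries.coeff_mul n f.1 g.1

lemma cn_add (n : ℕ) (f g : TS Unit R) : cn n (f + g) = cn n f + cn n g := cf_add _ f g

lemma cn_zero (n : ℕ) : cn n (0 : TS Unit R) = 0 := cf_zero _

lemma cn_one (n : ℕ) : cn n (1 : TS Unit R) = if n = 0 then 1 else 0 := PowerSeries.coeff_one n

lemma exists_norm_cn (f : TS Unit R) : ∃ n, ‖cn n f‖ = ‖f‖ := by
  obtain ⟨t, ht⟩ := exists_norm_eq f
  refine ⟨t (), ?_⟩
  rw [cn, ← ht]
  congr 2
  ext
  simp

lemma finite_cn (f : TS Unit R) : {n | ¬ ‖cn n f‖ < 1}.Finite := by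
  have h1 : Tendsto (fun n => ‖cn n f‖) cofinite (𝓝 0) :=
    (tendsto_cf f).comp (Finsupp.single_injective ()).tendsto_cofinite
  exact h1.eventually (gt_mem_nhds one_pos)

variable {D : Type*} [CommRing D] (r : ball R →+* D)

/-- A coefficient of an element of the closed unit ball. -/
noncomputable def bc (f : ball (TS Unit R)) (n : ℕ) : ball R := ⟨cn n f.1, (norm_cn_le n f.1).trans f.2⟩

lemma bc_mul (f g : ball (TS Unit R)) (n : ℕ) :
    bc (f * g) n = ∑ p ∈ Finset.HasAntidiagonal.antidiagonal n, bc f p.1 * bc g p.2 := by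
  apply Subtype.ext
  rw [AddSubmonoidClass.coe_finsetSum]
  exact cn_mul n f.1 g.1

lemma bc_add (f g : ball (TS Unit R)) (n : ℕ) : bc (f + g) n = bc f n + bc g n :=
  Subtype.ext (cn_add n f.1 g.1)

lemma finite_bc (hr : IsRed r) (f : ball (TS Unit R)) : {n | r (bc f n) ≠ 0}.Finite :=
  (finite_cn f.1).subset fun n hn h => hn ((hr _).2 h)

/-- The reduction of an element of the closed unit ball of `R⟨T⟩`. -/
noncomputable def redPoly (hr : IsRed r) (f : ball (TS Unit R)) : D[X] :=
  ∑ n ∈ (finite_bc r hr f).toFinset, monomial n (r (bc f n))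

lemma coeff_redPoly (hr : IsRed r) (f : ball (TS Unit R)) (n : ℕ) :
    (redPoly r hr f).coeff n = r (bc f n) := by
  classical
  unfold redPoly
  rw [finsetSum_coeff]
  simp only [coeff_monomial]
  rw [Finset.sum_ite_eq']
  split_ifs with h
  · rfl
  · rw [Set.Finite.mem_toFinset] at h
    by_contra hc
    exact h fun h' => hc h'.symm

/-- The reduction of the closed unit ball of `R⟨T⟩`. -/
noncomputable def redTS (hr : IsRed r) : ball (TS Unit R) →+* D[X] where
  toFun := redPoly r hr
  map_zero' := by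
    ext n
    rw [coeff_redPoly, coeff_zero]
    have : bc (0 : ball (TS Unit R)) n = 0 := Subtype.ext (cn_zero n)
    rw [this, map_zero]
  map_one' := by
    ext n
    rw [coeff_redPoly, coeff_one]
    have : bc (1 : ball (TS Unit R)) n = if n = 0 then 1 else 0 := by
      apply Subtype.ext
      have h := cn_one (R := R) n
      split_ifs with h1
      · rw [if_pos h1] at h; exact h
      · rw [if_neg h1] at h; exact h
    rw [this]
    split_ifs <;> simp
  map_add' f g := by
    ext n
    rw [coeff_add, coeff_redPoly, coeff_redPoly, coeff_redPoly, bc_add, map_add]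
  map_mul' f g := by
    ext n
    rw [coeff_mul, coeff_redPoly, bc_mul, map_sum]
    refine Finset.sum_congr rfl fun p _ => ?_
    rw [map_mul, coeff_redPoly, coeff_redPoly]

lemma coeff_redTS (hr : IsRed r) (f : ball (TS Unit R)) (n : ℕ) :
    (redTS r hr f).coeff n = r (bc f n) := coeff_redPoly r hr f n

lemma isRed_redTS (hr : IsRed r) : IsRed (redTS r hr) := by
  intro f
  constructor
  · intro h
    obtain ⟨n, hn⟩ := exists_norm_cn f.1
    rw [← hn]
    have h1 : r (bc f n) = 0 := by rw [← coeff_redTS r hr, h, coeff_zero]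
    exact (hr _).1 h1
  · intro h
    ext n
    rw [coeff_redTS, coeff_zero, hr]
    exact lt_of_le_of_lt (norm_cn_le n f.1) h

end TSred

section QAred

variable {S : Type*} [NormedCommRing S] [IsUltrametricDist S] [NormOneClass S]
variable {D : Type*} [CommRing D] (r : ball S →+* D[X])

/-- The first coordinate of an element of the closed unit ball. -/
def bre {p : QPar S} (z : ball (QA p)) : ball S := ⟨QA.re z.1, (QA.norm_re_le z.1).trans z.2⟩

/-- The second coordinate of an element of the closed unit ball. -/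
def bim {p : QPar S} (z : ball (QA p)) : ball S := ⟨QA.im z.1, (QA.norm_im_le z.1).trans z.2⟩

/-- The reduction of a quadratic extension with reduction `y ^ 2 = x ^ 3`, with values in
`D[s]`: here `x = s ^ 2` and `y = s ^ 3`. -/
noncomputable def redQA (p : QPar S) (hg : r ⟨p.g, p.hg⟩ = X ^ 3) (hb : r ⟨p.b, p.hb⟩ = 0) :
    ball (QA p) →+* D[X] where
  toFun z := expand D 2 (r (bre z)) + expand D 2 (r (bim z)) * X ^ 3
  map_zero' := by
    have h1 : bre (0 : ball (QA p)) = 0 := rfl
    have h2 : bim (0 : ball (QA p)) = 0 := rfl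
    rw [h1, h2]; simp
  map_one' := by
    have h1 : bre (1 : ball (QA p)) = 1 := rfl
    have h2 : bim (1 : ball (QA p)) = 0 := rfl
    rw [h1, h2]; simp
  map_add' z w := by
    have h1 : bre (z + w) = bre z + bre w := rfl
    have h2 : bim (z + w) = bim z + bim w := rfl
    rw [h1, h2]; simp only [map_add]; ring
  map_mul' z w := by
    have h1 : bre (z * w) = bre z * bre w + ⟨p.g, p.hg⟩ * bim z * bim w := rfl
    have h2 : bim (z * w) = bre z * bim w + bim z * bre w + ⟨p.b, p.hb⟩ * bim z * bim w := rfl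
    rw [h1, h2]
    simp only [map_add, map_mul, hg, hb, map_pow, expand_X, zero_mul, add_zero]
    ring

lemma redQA_apply (p : QPar S) (hg : r ⟨p.g, p.hg⟩ = X ^ 3) (hb : r ⟨p.b, p.hb⟩ = 0)
    (z : ball (QA p)) :
    redQA r p hg hb z = expand D 2 (r (bre z)) + expand D 2 (r (bim z)) * X ^ 3 := rfl

lemma coeff_expand_even (q : D[X]) (n : ℕ) : (expand D 2 q).coeff (2 * n) = q.coeff n := by
  rw [coeff_expand two_pos, if_pos ⟨n, rfl⟩]; simp

lemma coeff_expand_odd (q : D[X]) (n : ℕ) : (expand D 2 q).coeff (2 * n + 1) = 0 := by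
  rw [coeff_expand two_pos, if_neg]
  omega

lemma redQA_coeff_even (q q' : D[X]) (n : ℕ) :
    (expand D 2 q + expand D 2 q' * X ^ 3).coeff (2 * n) = q.coeff n := by
  rw [coeff_add, coeff_expand_even, coeff_mul_X_pow', ]
  split_ifs with h
  · have : 2 * n - 3 = 2 * (n - 2) + 1 := by omega
    rw [this, coeff_expand_odd, add_zero]
  · rw [add_zero]

lemma redQA_coeff_odd (q q' : D[X]) (n : ℕ) :
    (expand D 2 q + expand D 2 q' * X ^ 3).coeff (2 * n + 3) = q'.coeff n := by
  rw [coeff_add, coeff_mul_X_pow', if_pos (by omega)]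
  have h1 : 2 * n + 3 = 2 * (n + 1) + 1 := by ring
  have h2 : 2 * n + 3 - 3 = 2 * n := by omega
  rw [h2, coeff_expand_even, h1, coeff_expand_odd, zero_add]

lemma redQA_coeff_one (q q' : D[X]) :
    (expand D 2 q + expand D 2 q' * X ^ 3).coeff 1 = 0 := by
  rw [coeff_add, coeff_mul_X_pow', if_neg (by omega), add_zero]
  exact coeff_expand_odd q 0

lemma isRed_redQA (hr : IsRed r) (p : QPar S) (hg : r ⟨p.g, p.hg⟩ = X ^ 3)
    (hb : r ⟨p.b, p.hb⟩ = 0) : IsRed (redQA r p hg hb) := by
  intro z
  rw [redQA_apply]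
  constructor
  · intro h
    have h1 : r (bre z) = 0 := by
      ext n
      rw [← redQA_coeff_even (r (bre z)) (r (bim z)), h, coeff_zero, coeff_zero]
    have h2 : r (bim z) = 0 := by
      ext n
      rw [← redQA_coeff_odd (r (bre z)) (r (bim z)), h, coeff_zero, coeff_zero]
    exact max_lt ((hr _).1 h1) ((hr _).1 h2)
  · intro h
    have h1 : r (bre z) = 0 := (hr _).2 (lt_of_le_of_lt (QA.norm_re_le z.1) h)
    have h2 : r (bim z) = 0 := (hr _).2 (lt_of_le_of_lt (QA.norm_im_le z.1) h)
    rw [h1, h2]; simp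

end QAred

end Pool.Agent.U247.BQ
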