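import Mathlib

/-!
# A quadratic equation in a complete ultrametric ring
-/

set_option autoImplicit false

namespace Pool.Agent.U247.BQ

open Filter Topology

variable {R : Type*} [NormedCommRing R] [IsUltrametricDist R] [NormOneClass R]

omit [NormOneClass R] in
lemma norm_sub_le_max'' (x y : R) : ‖x - y‖ ≤ max ‖x‖ ‖y‖ := by
  rw [sub_eq_add_neg]
  refine (IsUltrametricDist.norm_add_le_max _ _).trans ?_
  rw [norm_neg]

lemma norm_nat_le (n : ℕ) : ‖(n : R)‖ ≤ 1 := IsUltrametricDist.norm_natCast_le_one R n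

lemma norm_four_le : ‖(4 : R)‖ ≤ 1 := by
  have := norm_nat_le (R := R) 4
  simpa using this

/-- The equation `(h + h ^ 2) (1 - 4 δ) = δ` has a small solution if `δ` is small. -/
theorem solve [CompleteSpace R] (δ : R) (hδ : ‖δ‖ < 1) :
    ∃ h : R, ‖h‖ ≤ ‖δ‖ ∧ (h + h ^ 2) * (1 - 4 * δ) = δ := by
  set F : R → R := fun h => δ + 4 * δ * (h + h ^ 2) - h ^ 2 with hF
  have hd : (0 : ℝ) ≤ ‖δ‖ := norm_nonneg _
  have h4δ : ‖4 * δ‖ ≤ ‖δ‖ := by
    refine (norm_mul_le _ _).trans ?_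
    exact mul_le_of_le_one_left hd norm_four_le
  have hsq : ∀ x : R, ‖x‖ ≤ ‖δ‖ → ‖x ^ 2‖ ≤ ‖δ‖ := fun x hx => by
    rw [sq]
    refine (norm_mul_le _ _).trans ?_
    calc ‖x‖ * ‖x‖ ≤ ‖δ‖ * ‖δ‖ := mul_le_mul hx hx (norm_nonneg _) hd
      _ ≤ ‖δ‖ * 1 := mul_le_mul_of_nonneg_left hδ.le hd
      _ = ‖δ‖ := mul_one _
  have hFn : ∀ x : R, ‖x‖ ≤ ‖δ‖ → ‖F x‖ ≤ ‖δ‖ := fun x hx => by
    have e1 : ‖4 * δ * (x + x ^ 2)‖ ≤ ‖δ‖ := by
      refine (norm_mul_le _ _).trans ?_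
      calc ‖4 * δ‖ * ‖x + x ^ 2‖ ≤ ‖δ‖ * 1 := by
            refine mul_le_mul h4δ ?_ (norm_nonneg _) hd
            exact (IsUltrametricDist.norm_add_le_max _ _).trans
              (max_le (hx.trans hδ.le) ((hsq x hx).trans hδ.le))
        _ = ‖δ‖ := mul_one _
    have e2 : ‖δ + 4 * δ * (x + x ^ 2)‖ ≤ ‖δ‖ :=
      (IsUltrametricDist.norm_add_le_max _ _).trans (max_le le_rfl e1)
    exact (norm_sub_le_max'' _ _).trans (max_le e2 (hsq x hx))
  have hlip : ∀ x y : R, ‖x‖ ≤ ‖δ‖ → ‖y‖ ≤ ‖δ‖ → ‖F x - F y‖ ≤ ‖δ‖ * ‖x - y‖ := by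
    intro x y hx hy
    have e0 : F x - F y = (4 * δ * (1 + (x + y)) - (x + y)) * (x - y) := by
      simp only [hF]; ring
    rw [e0]
    refine (norm_mul_le _ _).trans (mul_le_mul_of_nonneg_right ?_ (norm_nonneg _))
    have e1 : ‖x + y‖ ≤ ‖δ‖ := (IsUltrametricDist.norm_add_le_max _ _).trans (max_le hx hy)
    have e2 : ‖1 + (x + y)‖ ≤ 1 :=
      (IsUltrametricDist.norm_add_le_max _ _).trans (max_le norm_one.le (e1.trans hδ.le))
    refine (norm_sub_le_max'' _ _).trans (max_le ?_ e1)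
    refine (norm_mul_le _ _).trans ?_
    calc ‖4 * δ‖ * ‖1 + (x + y)‖ ≤ ‖δ‖ * 1 := mul_le_mul h4δ e2 (norm_nonneg _) hd
      _ = ‖δ‖ := mul_one _
  let u : ℕ → R := fun n => F^[n] 0
  have hu : ∀ n, u (n + 1) = F (u n) := fun n => Function.iterate_succ_apply' F n 0
  have hun : ∀ n, ‖u n‖ ≤ ‖δ‖ := by
    intro n
    induction n with
    | zero => show ‖(0 : R)‖ ≤ _; rw [norm_zero]; exact hd
    | succ n ih => rw [hu]; exact hFn _ ih
  have hdist : ∀ n, dist (u n) (u (n + 1)) ≤ 1 * ‖δ‖ ^ n := by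
    intro n
    rw [dist_eq_norm, one_mul, norm_sub_rev]
    induction n with
    | zero =>
      rw [pow_zero]
      exact (norm_sub_le_max'' _ _).trans
        (max_le ((hun _).trans hδ.le) ((hun _).trans hδ.le))
    | succ n ih =>
      rw [hu (n + 1), hu n, pow_succ, mul_comm]
      refine (hlip _ _ (hFn _ (hun n)) (hun n)).trans ?_
      rw [← hu n]
      exact mul_le_mul_of_nonneg_left ih hd
  have hc : CauchySeq u := cauchySeq_of_le_geometric ‖δ‖ 1 hδ hdist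
  obtain ⟨h, hh⟩ := cauchySeq_tendsto_of_complete hc
  have hcont : Continuous F := by
    simp only [hF]; fun_prop
  have h1 : Tendsto (fun n => u (n + 1)) atTop (𝓝 (F h)) := by
    simp only [hu]
    exact (hcont.tendsto h).comp hh
  have h2 : Tendsto (fun n => u (n + 1)) atTop (𝓝 h) := hh.comp (tendsto_add_atTop_nat 1)
  have h3 : F h = h := tendsto_nhds_unique h1 h2
  refine ⟨h, le_of_tendsto hh.norm (Eventually.of_forall hun), ?_⟩
  have h4 : δ + 4 * δ * (h + h ^ 2) - h ^ 2 = h := h3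
  linear_combination (-1 : R) * h4

end Pool.Agent.U247.BQ
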