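import Pool.Agent.U247.BQ.Red
import Pool.Agent.U247.BQ.Poly
import Pool.Agent.U247.BQ.Ext
import Pool.Agent.U247.BQ.Solve

/-!
# A projective module over `A⟨T⟩` which is not extended

Let `k` be a complete ultrametric field, `π` in `k` with `|π| < 1` and let `A` be the affinoid
algebra `k⟨x, y⟩ / (y ^ 2 + π y - x ^ 3 - π x)`, realized as `S ⊕ S y` with `S = k⟨x⟩`.
We construct a projective `A⟨T⟩`-module of rank one which is not extended from `A`.
-/

set_option autoImplicit false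

namespace Pool.Agent.U247.BQ

open Filter Topology Polynomial
open scoped NI

universe u

variable {k : Type u} [NontriviallyNormedField k] [IsUltrametricDist k] [CompleteSpace k]

section params

lemma norm_cst {σ R : Type*} [NormedCommRing R] [IsUltrametricDist R] (r : R) :
    ‖(cst r : TS σ R)‖ = ‖r‖ := norm_mono _ _

lemma norm_var {σ R : Type*} [NormedCommRing R] [IsUltrametricDist R] [NormOneClass R] (i : σ) :
    ‖(var i : TS σ R)‖ = 1 := by rw [var, norm_mono, norm_one]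

/-- the variable `x` of `S = k⟨x⟩` -/
noncomputable def xS : TS Unit k := var ()

variable (k) in
lemma norm_xS : ‖(xS : TS Unit k)‖ = 1 := norm_var ()

lemma norm_g_le (π : k) (hπ : ‖π‖ < 1) : ‖(xS ^ 3 + cst π * xS : TS Unit k)‖ ≤ 1 := by
  refine (IsUltrametricDist.norm_add_le_max _ _).trans (max_le ?_ ?_)
  · exact (norm_pow_le _ _).trans (pow_le_one₀ (norm_nonneg _) (norm_xS k).le)
  · refine (norm_mul_le _ _).trans ?_
    rw [norm_cst, norm_xS, mul_one]; exact hπ.le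

/-- The parameters of the quadratic extension `y ^ 2 = (x ^ 3 + π x) - π y`. -/
noncomputable def par (π : k) (hπ : ‖π‖ < 1) : QPar (TS Unit k) where
  g := xS ^ 3 + cst π * xS
  b := -cst π
  hg := norm_g_le π hπ
  hb := by rw [norm_neg, norm_cst]; exact hπ.le

end params

variable {π : k} {hπ : ‖π‖ < 1}

section scal

lemma exists_norm_S (f : TS Unit k) : ∃ c : k, ‖c‖ = ‖f‖ := by
  obtain ⟨n, hn⟩ := exists_norm_cn f
  exact ⟨_, hn⟩

lemma exists_norm_A (f : QA (par π hπ)) : ∃ c : k, ‖c‖ = ‖f‖ := by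
  rcases le_total ‖QA.re f‖ ‖QA.im f‖ with h | h
  · obtain ⟨c, hc⟩ := exists_norm_S (QA.im f)
    exact ⟨c, by rw [hc, QA.norm_def, max_eq_right h]⟩
  · obtain ⟨c, hc⟩ := exists_norm_S (QA.re f)
    exact ⟨c, by rw [hc, QA.norm_def, max_eq_left h]⟩

lemma exists_norm_R (f : TS Unit (QA (par π hπ))) : ∃ c : k, ‖c‖ = ‖f‖ := by
  obtain ⟨n, hn⟩ := exists_norm_cn f
  obtain ⟨c, hc⟩ := exists_norm_A (cn n f)
  exact ⟨c, by rw [hc, hn]⟩

variable (π hπ) in
/-- The constants of `A`. -/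
noncomputable def iA : k →+* QA (par π hπ) := (QA.inc (par π hπ)).comp (constHom Unit k)

lemma iA_apply (c : k) : iA π hπ c = QA.inc (par π hπ) (cst c) := rfl

lemma norm_iA (c : k) : ‖iA π hπ c‖ = ‖c‖ := by rw [iA_apply, QA.norm_inc, norm_cst]

variable (π hπ) in
/-- The constants of `A⟨T⟩`. -/
noncomputable def iR : k →+* TS Unit (QA (par π hπ)) := (constHom Unit _).comp (iA π hπ)

lemma iR_apply (c : k) : iR π hπ c = cst (iA π hπ c) := rfl

lemma norm_iR (c : k) : ‖iR π hπ c‖ = ‖c‖ := by rw [iR_apply, norm_cst, norm_iA]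

lemma iR_mul_inv {c : k} (hc : c ≠ 0) : iR π hπ c * iR π hπ c⁻¹ = 1 := by
  rw [← map_mul, mul_inv_cancel₀ hc, map_one]

lemma norm_iR_mul (c : k) (f : TS Unit (QA (par π hπ))) : ‖iR π hπ c * f‖ = ‖c‖ * ‖f‖ := by
  rcases eq_or_ne c 0 with rfl | hc
  · simp
  · refine le_antisymm ((norm_mul_le _ _).trans (by rw [norm_iR])) ?_
    have h1 : f = iR π hπ c⁻¹ * (iR π hπ c * f) := by
      rw [← mul_assoc, mul_comm (iR π hπ c⁻¹), iR_mul_inv hc, one_mul]
    have h2 : ‖f‖ ≤ ‖c⁻¹‖ * ‖iR π hπ c * f‖ := by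
      conv_lhs => rw [h1]
      exact (norm_mul_le _ _).trans (by rw [norm_iR])
    have h3 : 0 < ‖c‖ := norm_pos_iff.2 hc
    calc ‖c‖ * ‖f‖ ≤ ‖c‖ * (‖c⁻¹‖ * ‖iR π hπ c * f‖) := mul_le_mul_of_nonneg_left h2 h3.le
      _ = ‖iR π hπ c * f‖ := by rw [norm_inv]; field_simp

end scal

variable {D : Type*} [CommRing D] (r₀ : ball k →+* D) (hr₀ : IsRed r₀)

section red

/-- The reduction of `S`. -/
noncomputable def rS : ball (TS Unit k) →+* D[X] := redTS r₀ hr₀

lemma isRed_rS : IsRed (rS r₀ hr₀) := isRed_redTS _ _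

lemma cn_cst {R : Type*} [NormedCommRing R] [IsUltrametricDist R] [NormOneClass R] (a : R) (n : ℕ) :
    cn n (cst a) = if n = 0 then a else 0 := by
  rw [cn, cst, cf_mono]
  by_cases h : n = 0
  · subst h; simp
  · rw [if_neg h, if_neg]
    intro h'
    exact h (by simpa using h')

lemma cn_var {R : Type*} [NormedCommRing R] [IsUltrametricDist R] [NormOneClass R] (n : ℕ) :
    cn n (var () : TS Unit R) = if n = 1 then 1 else 0 := by
  rw [cn, var, cf_mono]
  by_cases h : n = 1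
  · subst h; simp
  · rw [if_neg h, if_neg]
    intro h'
    exact h (Finsupp.single_injective () h')

lemma redTS_cst {R : Type*} [NormedCommRing R] [IsUltrametricDist R] [NormOneClass R]
    {D : Type*} [CommRing D] (r : ball R →+* D) (hr : IsRed r) (a : ball R)
    (h : (cst a.1 : TS Unit R) ∈ ball (TS Unit R)) :
    redTS r hr ⟨cst a.1, h⟩ = C (r a) := by
  ext n
  rw [coeff_redTS, coeff_C]
  have h1 : bc (⟨cst a.1, h⟩ : ball (TS Unit R)) n = if n = 0 then a else 0 := by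
    apply Subtype.ext
    have h2 := cn_cst a.1 n
    split_ifs with h3
    · rw [if_pos h3] at h2; exact h2
    · rw [if_neg h3] at h2; exact h2
  rw [h1]
  split_ifs <;> simp

lemma redTS_var {R : Type*} [NormedCommRing R] [IsUltrametricDist R] [NormOneClass R]
    {D : Type*} [CommRing D] (r : ball R →+* D) (hr : IsRed r)
    (h : (var () : TS Unit R) ∈ ball (TS Unit R)) :
    redTS r hr ⟨var (), h⟩ = X := by
  ext n
  rw [coeff_redTS, coeff_X]
  have h1 : bc (⟨var (), h⟩ : ball (TS Unit R)) n = if n = 1 then 1 else 0 := by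
    apply Subtype.ext
    have h2 := cn_var (R := R) n
    split_ifs with h3
    · rw [if_pos h3] at h2; exact h2
    · rw [if_neg h3] at h2; exact h2
  rw [h1]
  by_cases h3 : n = 1
  · rw [if_pos h3, if_pos h3.symm, map_one]
  · rw [if_neg h3, if_neg (Ne.symm h3), map_zero]

lemma rS_var (h : (xS : TS Unit k) ∈ ball (TS Unit k)) : rS r₀ hr₀ ⟨xS, h⟩ = X := redTS_var _ _ _

lemma rS_small (f : ball (TS Unit k)) (hf : ‖f.1‖ < 1) : rS r₀ hr₀ f = 0 := (isRed_rS r₀ hr₀ f).2 hf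

lemma rS_g : rS r₀ hr₀ ⟨(par π hπ).g, (par π hπ).hg⟩ = X ^ 3 := by
  have hx : (xS : TS Unit k) ∈ ball (TS Unit k) := (norm_xS k).le
  have hc : (cst π * xS : TS Unit k) ∈ ball (TS Unit k) := by
    rw [mem_ball]
    refine (norm_mul_le _ _).trans ?_
    rw [norm_cst, norm_xS, mul_one]; exact hπ.le
  have h1 : (⟨(par π hπ).g, (par π hπ).hg⟩ : ball (TS Unit k)) = ⟨xS, hx⟩ ^ 3 + ⟨cst π * xS, hc⟩ :=
    rfl
  rw [h1, map_add, map_pow, rS_var, rS_small r₀ hr₀ ⟨cst π * xS, hc⟩, add_zero]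
  refine lt_of_le_of_lt (norm_mul_le _ _) ?_
  rw [norm_cst, norm_xS, mul_one]; exact hπ

lemma rS_b : rS r₀ hr₀ ⟨(par π hπ).b, (par π hπ).hb⟩ = 0 := by
  refine rS_small r₀ hr₀ _ ?_
  show ‖(-cst π : TS Unit k)‖ < 1
  rw [norm_neg, norm_cst]; exact hπ

variable (π hπ) in
/-- The reduction of `A`. -/
noncomputable def rA : ball (QA (par π hπ)) →+* D[X] :=
  redQA (rS r₀ hr₀) (par π hπ) (rS_g r₀ hr₀) (rS_b r₀ hr₀)

variable (π hπ) in
lemma isRed_rA : IsRed (rA π hπ r₀ hr₀) := isRed_redQA _ (isRed_rS r₀ hr₀) _ _ _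

variable (π hπ) in
/-- The reduction of `A⟨T⟩`. -/
noncomputable def rR : ball (TS Unit (QA (par π hπ))) →+* D[X][X] :=
  redTS _ (isRed_rA π hπ r₀ hr₀)

variable (π hπ) in
lemma isRed_rR : IsRed (rR π hπ r₀ hr₀) := isRed_redTS _ _

lemma rR_coeff (f : ball (TS Unit (QA (par π hπ)))) (n : ℕ) : ((rR π hπ r₀ hr₀ f).coeff n).coeff 1 = 0 := by
  rw [rR, coeff_redTS, rA, redQA_apply]
  exact redQA_coeff_one _ _

end red

section elements

variable (π hπ)

/-- `x` as an element of the unit ball of `A⟨T⟩` -/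
noncomputable def Xb : ball (TS Unit (QA (par π hπ))) :=
  ⟨cst (QA.inc (par π hπ) xS), by rw [mem_ball, norm_cst, QA.norm_inc, norm_xS]⟩

/-- `y` as an element of the unit ball of `A⟨T⟩` -/
noncomputable def Yb : ball (TS Unit (QA (par π hπ))) :=
  ⟨cst (QA.om (par π hπ)), by rw [mem_ball, norm_cst, QA.norm_om]⟩

/-- `T` as an element of the unit ball of `A⟨T⟩` -/
noncomputable def Tb : ball (TS Unit (QA (par π hπ))) := ⟨var (), (norm_var _).le⟩

/-- `π` as an element of the unit ball of `A⟨T⟩` -/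
noncomputable def Pb : ball (TS Unit (QA (par π hπ))) :=
  ⟨iR π hπ π, by rw [mem_ball, norm_iR]; exact hπ.le⟩

lemma rR_X : rR π hπ r₀ hr₀ (Xb π hπ) = C X ^ 2 := by
  have h1 : (QA.inc (par π hπ) xS) ∈ ball (QA (par π hπ)) := by
    rw [mem_ball, QA.norm_inc, norm_xS]
  have h2 := redTS_cst (rA π hπ r₀ hr₀) (isRed_rA π hπ r₀ hr₀) ⟨_, h1⟩ (Xb π hπ).2
  refine h2.trans ?_
  have hx : (xS : TS Unit k) ∈ ball (TS Unit k) := (norm_xS k).le
  have h3 : rA π hπ r₀ hr₀ ⟨_, h1⟩ =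
      expand D 2 (rS r₀ hr₀ ⟨xS, hx⟩) + expand D 2 (rS r₀ hr₀ 0) * X ^ 3 :=
    rfl
  rw [h3, rS_var, map_zero, map_zero, zero_mul, add_zero, expand_X, C_pow]

lemma rR_Y : rR π hπ r₀ hr₀ (Yb π hπ) = C X ^ 3 := by
  have h1 : (QA.om (par π hπ)) ∈ ball (QA (par π hπ)) := by
    rw [mem_ball, QA.norm_om]
  have h2 := redTS_cst (rA π hπ r₀ hr₀) (isRed_rA π hπ r₀ hr₀) ⟨_, h1⟩ (Yb π hπ).2
  refine h2.trans ?_
  have h3 : rA π hπ r₀ hr₀ ⟨_, h1⟩ =
      expand D 2 (rS r₀ hr₀ 0) + expand D 2 (rS r₀ hr₀ 1) * X ^ 3 :=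
    rfl
  rw [h3, map_zero, map_zero, zero_add, map_one, map_one, one_mul, C_pow]

lemma rR_T : rR π hπ r₀ hr₀ (Tb π hπ) = X :=
  redTS_var (rA π hπ r₀ hr₀) (isRed_rA π hπ r₀ hr₀) _

lemma XY : (Yb π hπ) ^ 2 = (Xb π hπ) ^ 3 + Pb π hπ * (Xb π hπ - Yb π hπ) := by
  apply Subtype.ext
  show (cst (QA.om (par π hπ)) : TS Unit (QA (par π hπ))) ^ 2 =
    cst (QA.inc (par π hπ) xS) ^ 3 + cst (iA π hπ π) *
      (cst (QA.inc (par π hπ) xS) - cst (QA.om (par π hπ)))
  have e : ∀ z : QA (par π hπ), (cst z : TS Unit (QA (par π hπ))) = constHom Unit _ z := fun z => rfl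
  simp only [e]
  rw [← map_pow, ← map_pow, ← map_sub, ← map_mul, ← map_add]
  congr 1
  rw [sq, QA.om_sq, iA_apply]
  show QA.inc _ (xS ^ 3 + cst π * xS) + QA.inc _ (-cst π) * QA.om _ = _
  rw [map_add, map_mul, map_neg, map_pow]
  ring

end elements


end Pool.Agent.U247.BQ
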