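import Pool.Agent.U247.BQ.Defs

/-!
# Restricted power series over a normed ring

The ring `TS σ R` of restricted power series with the Gauss norm: it is an ultrametric normed ring,
complete if `R` is complete, and every element is the sum of its monomials.
-/

set_option autoImplicit false

namespace Pool.Agent.U247.BQ

open MvPowerSeries Filter Topology

section norm

variable {σ : Type*} {R : Type*} [NormedCommRing R] [IsUltrametricDist R]

/-- The `t`-th coefficient of a restricted power series. -/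
def cf (t : σ →₀ ℕ) (f : TS σ R) : R := coeff t f.1

lemma tendsto_cf (f : TS σ R) : Tendsto (fun t => ‖cf t f‖) cofinite (𝓝 0) :=
  (mem_iff f.1).1 f.2

lemma ext_cf {f g : TS σ R} (h : ∀ t, cf t f = cf t g) : f = g :=
  Subtype.ext (MvPowerSeries.ext h)

@[simp] lemma cf_zero (t : σ →₀ ℕ) : cf t (0 : TS σ R) = 0 := by simp [cf]
@[simp] lemma cf_add (t : σ →₀ ℕ) (f g : TS σ R) : cf t (f + g) = cf t f + cf t g := by simp [cf]
@[simp] lemma cf_neg (t : σ →₀ ℕ) (f : TS σ R) : cf t (-f) = - cf t f := by simp [cf]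
@[simp] lemma cf_sub (t : σ →₀ ℕ) (f g : TS σ R) : cf t (f - g) = cf t f - cf t g := by simp [cf]

lemma cf_mul [DecidableEq σ] (t : σ →₀ ℕ) (f g : TS σ R) :
    cf t (f * g) = ∑ p ∈ Finset.HasAntidiagonal.antidiagonal t, cf p.1 f * cf p.2 g := by
  simp [cf, coeff_mul]

lemma bdd (f : TS σ R) : BddAbove (Set.range fun t => ‖cf t f‖) := by
  have h := tendsto_cf f
  have h1 : ∀ᶠ t in cofinite, ‖cf t f‖ < 1 := h.eventually (gt_mem_nhds one_pos)
  have h2 : {t | ¬ ‖cf t f‖ < 1}.Finite := h1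
  obtain ⟨M, hM⟩ := (h2.image (fun t => ‖cf t f‖)).bddAbove
  refine ⟨max M 1, ?_⟩
  rintro _ ⟨t, rfl⟩
  by_cases ht : ‖cf t f‖ < 1
  · exact le_max_of_le_right ht.le
  · exact le_max_of_le_left (hM ⟨t, ht, rfl⟩)

namespace NI

noncomputable scoped instance instNormTS : Norm (TS σ R) := ⟨fun f => ⨆ t, ‖cf t f‖⟩

end NI

open scoped NI

lemma norm_def (f : TS σ R) : ‖f‖ = ⨆ t, ‖cf t f‖ := rfl

lemma norm_cf_le (f : TS σ R) (t : σ →₀ ℕ) : ‖cf t f‖ ≤ ‖f‖ := le_ciSup (bdd f) t

lemma norm_le_iff {f : TS σ R} {M : ℝ} : ‖f‖ ≤ M ↔ ∀ t, ‖cf t f‖ ≤ M := ciSup_le_iff (bdd f)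

lemma norm_nonneg' (f : TS σ R) : 0 ≤ ‖f‖ := (norm_nonneg _).trans (norm_cf_le f 0)

/-- The norm is attained. -/
lemma exists_norm_eq (f : TS σ R) : ∃ t, ‖cf t f‖ = ‖f‖ := by
  rcases (norm_nonneg' f).eq_or_lt with h | h
  · exact ⟨0, le_antisymm (norm_cf_le f 0) (h ▸ norm_nonneg _)⟩
  · by_contra hne
    push Not at hne
    have h1 : ∀ᶠ t in cofinite, ‖cf t f‖ < ‖f‖ / 2 :=
      (tendsto_cf f).eventually (gt_mem_nhds (half_pos h))
    have h2 : {t | ¬ ‖cf t f‖ < ‖f‖ / 2}.Finite := h1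
    rcases Set.eq_empty_or_nonempty {t | ¬ ‖cf t f‖ < ‖f‖ / 2} with h3 | h3
    · have : ‖f‖ ≤ ‖f‖ / 2 := norm_le_iff.2 fun t => by
        by_contra hc
        have : t ∈ {t | ¬ ‖cf t f‖ < ‖f‖ / 2} := fun h => hc h.le
        rw [h3] at this
        exact this
      linarith
    · obtain ⟨t₀, -, ht₀⟩ := h2.exists_maximalFor (fun t => ‖cf t f‖) _ h3
      have h4 : ‖f‖ ≤ max ‖cf t₀ f‖ (‖f‖ / 2) := norm_le_iff.2 fun t => by
        by_cases ht : ‖cf t f‖ < ‖f‖ / 2
        · exact le_max_of_le_right ht.le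
        · refine le_max_of_le_left ?_
          rcases le_total ‖cf t₀ f‖ ‖cf t f‖ with h | h
          · exact ht₀ ht h
          · exact h
      rcases le_max_iff.1 h4 with h5 | h5
      · exact hne t₀ (le_antisymm (norm_cf_le f t₀) h5)
      · linarith

lemma norm_add_le_max' (f g : TS σ R) : ‖f + g‖ ≤ max ‖f‖ ‖g‖ :=
  norm_le_iff.2 fun t => by
    rw [cf_add]
    exact (IsUltrametricDist.norm_add_le_max _ _).trans
      (max_le_max (norm_cf_le f t) (norm_cf_le g t))

lemma norm_mul_le' (f g : TS σ R) : ‖f * g‖ ≤ ‖f‖ * ‖g‖ := by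
  classical
  refine norm_le_iff.2 fun t => ?_
  rw [cf_mul]
  refine IsUltrametricDist.norm_sum_le_of_forall_le_of_nonneg
    (mul_nonneg (norm_nonneg' f) (norm_nonneg' g)) fun p _ => ?_
  exact (norm_mul_le _ _).trans
    (mul_le_mul (norm_cf_le f _) (norm_cf_le g _) (norm_nonneg _) (norm_nonneg' f))

/-- The additive group norm of `TS σ R`. -/
noncomputable def groupNorm : AddGroupNorm (TS σ R) where
  toFun f := ‖f‖
  map_zero' := by
    refine le_antisymm (norm_le_iff.2 fun t => ?_) (norm_nonneg' _)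
    rw [cf_zero, norm_zero]
  add_le' f g := (norm_add_le_max' f g).trans
    (max_le_add_of_nonneg (norm_nonneg' f) (norm_nonneg' g))
  neg' f := by
    simp [norm_def]
  eq_zero_of_map_eq_zero' f h := by
    refine ext_cf fun t => ?_
    rw [cf_zero, ← norm_le_zero_iff]
    exact (norm_cf_le f t).trans (le_of_eq h)

namespace NI

noncomputable scoped instance instNormedCommRingTS : NormedCommRing (TS σ R) :=
  { Subring.toCommRing _ with
    toNorm := instNormTS
    toMetricSpace := (groupNorm (σ := σ) (R := R)).toNormedAddCommGroup.toMetricSpace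
    dist_eq := (groupNorm (σ := σ) (R := R)).toNormedAddCommGroup.dist_eq
    norm_mul_le := norm_mul_le' }

scoped instance instUltraTS : IsUltrametricDist (TS σ R) :=
  IsUltrametricDist.isUltrametricDist_of_forall_norm_add_le_max_norm norm_add_le_max'

end NI

/-- The monomial `r X ^ t`. -/
noncomputable def mono (t : σ →₀ ℕ) (r : R) : TS σ R := ⟨monomial t r, isRestricted_monomial _ t r⟩

lemma cf_mono [DecidableEq σ] (t s : σ →₀ ℕ) (r : R) :
    cf t (mono s r) = if t = s then r else 0 := by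
  simp [cf, mono, coeff_monomial]

lemma norm_mono_le (t : σ →₀ ℕ) (r : R) : ‖mono t r‖ ≤ ‖r‖ := by
  classical
  refine norm_le_iff.2 fun s => ?_
  rw [cf_mono]
  split_ifs
  · exact le_rfl
  · simp

lemma norm_mono (t : σ →₀ ℕ) (r : R) : ‖mono t r‖ = ‖r‖ := by
  classical
  refine le_antisymm (norm_mono_le t r) ?_
  have := norm_cf_le (mono t r) t
  rwa [cf_mono, if_pos rfl] at this

lemma mono_mul (t s : σ →₀ ℕ) (a b : R) : mono t a * mono s b = mono (t + s) (a * b) :=
  Subtype.ext (monomial_mul_monomial _ _ _ _)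

lemma mono_add (t : σ →₀ ℕ) (a b : R) : mono t (a + b) = mono t a + mono t b :=
  Subtype.ext (map_add _ _ _)

lemma mono_zero_one : mono (0 : σ →₀ ℕ) (1 : R) = 1 := Subtype.ext rfl

lemma mono_zero (t : σ →₀ ℕ) : mono t (0 : R) = 0 := Subtype.ext (map_zero _)

scoped instance NI.instNormOneTS [NormOneClass R] : NormOneClass (TS σ R) :=
  ⟨by rw [← mono_zero_one, norm_mono, norm_one]⟩

/-- Every restricted power series is the sum of its monomials. -/
lemma hasSum_mono (f : TS σ R) : HasSum (fun t => mono t (cf t f)) f := by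
  classical
  rw [HasSum, SummationFilter.unconditional_filter, Metric.tendsto_atTop]
  intro ε hε
  have h1 : ∀ᶠ t in cofinite, ‖cf t f‖ < ε / 2 :=
    (tendsto_cf f).eventually (gt_mem_nhds (half_pos hε))
  have h2 : {t | ¬ ‖cf t f‖ < ε / 2}.Finite := h1
  refine ⟨h2.toFinset, fun s hs => ?_⟩
  rw [dist_eq_norm]
  refine lt_of_le_of_lt (b := ε / 2) (norm_le_iff.2 fun t => ?_) (half_lt_self hε)
  have h3 : cf t (∑ u ∈ s, mono u (cf u f)) = if t ∈ s then cf t f else 0 := by
    have : ∀ v : Finset (σ →₀ ℕ), cf t (∑ u ∈ v, mono u (cf u f)) =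
        ∑ u ∈ v, cf t (mono u (cf u f)) := by
      intro v
      induction v using Finset.induction_on with
      | empty => simp
      | insert a v ha ih => rw [Finset.sum_insert ha, Finset.sum_insert ha, cf_add, ih]
    rw [this]
    simp only [cf_mono]
    rw [Finset.sum_ite_eq]
  rw [cf_sub, h3]
  split_ifs with ht
  · rw [sub_self, norm_zero]; positivity
  · rw [zero_sub, norm_neg]
    by_contra hc
    push Not at hc
    exact ht (hs (h2.mem_toFinset.2 fun h => absurd h (not_lt.2 hc.le)))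

scoped instance NI.complete [CompleteSpace R] : CompleteSpace (TS σ R) := by
  classical
  refine Metric.complete_of_cauchySeq_tendsto fun u hu => ?_
  have hc : ∀ t, CauchySeq fun n => cf t (u n) := by
    intro t
    rw [Metric.cauchySeq_iff] at hu ⊢
    intro ε hε
    obtain ⟨N, hN⟩ := hu ε hε
    refine ⟨N, fun m hm n hn => ?_⟩
    have := hN m hm n hn
    rw [dist_eq_norm] at this ⊢
    rw [← cf_sub]
    exact lt_of_le_of_lt (norm_cf_le _ t) this
  choose g hg using fun t => cauchySeq_tendsto_of_complete (hc t)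
  -- uniform convergence of the coefficients
  have hunif : ∀ ε > 0, ∃ N, ∀ n ≥ N, ∀ t, ‖cf t (u n) - g t‖ ≤ ε := by
    intro ε hε
    rw [Metric.cauchySeq_iff] at hu
    obtain ⟨N, hN⟩ := hu ε hε
    refine ⟨N, fun n hn t => ?_⟩
    have h1 : Tendsto (fun m => ‖cf t (u n) - cf t (u m)‖) atTop (𝓝 ‖cf t (u n) - g t‖) :=
      (tendsto_const_nhds.sub (hg t)).norm
    refine le_of_tendsto h1 (Filter.eventually_atTop.2 ⟨N, fun m hm => ?_⟩)
    have := hN n hn m hm
    rw [dist_eq_norm] at this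
    rw [← cf_sub]
    exact (norm_cf_le _ t).trans this.le
  let G : MvPowerSeries σ R := g
  have hGc : ∀ t, coeff t G = g t := fun t => rfl
  have hres : G ∈ MvPowerSeries.IsRestricted.subring (R := R) (fun _ : σ => (1 : ℝ)) := by
    rw [mem_iff, Metric.tendsto_nhds]
    simp only [hGc]
    intro ε hε
    obtain ⟨N, hN⟩ := hunif (ε / 2) (half_pos hε)
    have h1 : ∀ᶠ t in cofinite, ‖cf t (u N)‖ < ε / 2 :=
      (tendsto_cf (u N)).eventually (gt_mem_nhds (half_pos hε))
    filter_upwards [h1] with t ht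
    have h2 : ‖g t‖ < ε := by
      have h3 : g t = cf t (u N) - (cf t (u N) - g t) := by abel
      rw [h3]
      refine lt_of_le_of_lt (norm_sub_le _ _) ?_
      linarith [hN N le_rfl t]
    show dist ‖g t‖ 0 < ε
    rwa [Real.dist_0_eq_abs, abs_of_nonneg (norm_nonneg _)]
  refine ⟨⟨G, hres⟩, ?_⟩
  rw [Metric.tendsto_atTop]
  intro ε hε
  obtain ⟨N, hN⟩ := hunif (ε / 2) (half_pos hε)
  refine ⟨N, fun n hn => ?_⟩
  rw [dist_eq_norm]
  refine lt_of_le_of_lt (b := ε / 2) (norm_le_iff.2 fun t => ?_) (half_lt_self hε)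
  rw [cf_sub]
  exact hN n hn t

end norm

end Pool.Agent.U247.BQ
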